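import Pool.Agent.H14.Defs

/-!
# The exponents of SAT and `k`-SAT with a bounded density of clauses
-/

set_option autoImplicit false

namespace Pool.Agent.H94.DS

open Turing Pool.Agent.H14.ETH

open Classical in
/-- Satisfiability of the formulas `F` over `n` variables with `K n F` can be decided by a
deterministic Turing machine running in time `O(2 ^ (s n))`, `n` being the number of variables. -/
def SolvableOn (K : ℕ → List (List Lit) → Prop) (s : ℝ) : Prop :=
  ∃ (M : TM2ComputableAux Sym Bool) (c : ℝ), ∀ (n : ℕ) (F : List (List Lit)), K n F →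
    ∃ t : ℕ, (t : ℝ) ≤ c * (2 : ℝ) ^ (s * n) ∧
      Nonempty (TM2OutputsInTime M.tm ((encodeCNF n F).map M.inputAlphabet.symm)
        (some [M.outputAlphabet.symm (decide (Satisfiable F))]) t)

/-- CNF formulas over `n` variables with at most `Δ n` clauses, of any width. -/
def Dens (Δ : ℝ) (n : ℕ) (F : List (List Lit)) : Prop :=
  (∃ k, IsCNF k n F) ∧ (F.length : ℝ) ≤ Δ * n

/-- `k`-CNF formulas over `n` variables with at most `Δ n` clauses. -/
def DensK (k : ℕ) (Δ : ℝ) (n : ℕ) (F : List (List Lit)) : Prop :=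
  IsCNF k n F ∧ (F.length : ℝ) ≤ Δ * n

/-- The exponent `d_Δ` of SAT with at most `Δ n` clauses. -/
noncomputable def densExp (Δ : ℝ) : ℝ := sInf {s : ℝ | 0 ≤ s ∧ SolvableOn (Dens Δ) s}

/-- The exponent `s_k(Δ)` of `k`-SAT with at most `Δ n` clauses. -/
noncomputable def densSatExp (k : ℕ) (Δ : ℝ) : ℝ :=
  sInf {s : ℝ | 0 ≤ s ∧ SolvableOn (DensK k Δ) s}

end Pool.Agent.H94.DS
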