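import Pool.Agent.H94.DS.General
import Pool.Agent.H14.EquivK

/-!
# Module SPS: sparse 3-SAT is as hard as 4-SAT

Plan. Adapt `succ_of_self` of `Pool/Agent/H14/SparseK.lean` and `leaf_spec` of
`Pool/Agent/H14/IpzK.lean`, with `k = 3`, `K = 4`. Let `a` be a natural number with `2 ≤ C₀ a`.
At a leaf output `encodeCNF (a * n') G` where `(n', G) = toK 3 n L` (`n' = n + L.length`,
`G.length ≤ 2 * L.length ≤ 2 * n' ≤ C₀ * (a * n')`), or `encodeCNF a [[]]` if the family is dead.
A 3-CNF over `n'` variables is a 3-CNF over `a n' ≥ n'` variables. The cost of a leaf is at most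
`c 2 ^ (ε a n')` (use the constant `C = max c 1 * 2 ^ (ε a)` for the dead leaves), so with
`B = ε a (1 + Kc)` the tree gives 4-SAT in time `2 ^ (ρ n)` for every `ρ > B + γ`. As
`ε > 0` is arbitrary and `γ = 2 / m` (`exists_spK 4 m`), `satExp 4 = 0` as in
`satExp_succ_eq_zero`.
-/

set_option autoImplicit false

namespace Pool.Agent.H94.DS

open Pool.Agent.H14.ETH

/-- Output: the formula is padded with new variables. -/
def sps_out (a k : ℕ) (N : Nd1) : List Sym :=
  if deadL N.2 then encodeCNF a [[]] else encodeCNF (a * (toK k N.1 N.2).1) (toK k N.1 N.2).2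

theorem sps_dedup_aux (L : LFam) : ∀ acc : LFam,
    (L.foldl (fun acc C => if acc.any (fun D => setEq C D) then acc else C :: acc) acc).length
      ≤ acc.length + L.length := by
  induction L with
  | nil => intro acc; simp
  | cons C L ih =>
    intro acc
    simp only [List.foldl_cons, List.length_cons]
    refine (ih _).trans ?_
    split_ifs
    · omega
    · simp only [List.length_cons]; omega

theorem sps_dedup_len (L : LFam) : (dedupF L).length ≤ L.length := by
  have := sps_dedup_aux L []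
  simpa [dedupF] using this

theorem sps_split_len (k n : ℕ) (L : LFam) : (splitKL k n L).length ≤ 2 * L.length := by
  unfold splitKL
  rw [List.length_flatMap]
  have h : ∀ i ∈ (List.range L.length).map (fun i => (splitK k (n + i) (getL L i)).length),
      i ≤ 2 := by
    intro x hx
    obtain ⟨i, _, rfl⟩ := List.mem_map.1 hx
    unfold splitK
    split_ifs <;> simp
  have h2 := List.sum_le_card_nsmul _ 2 h
  simpa [mul_comm] using h2

theorem sps_toK_len (k n : ℕ) (L : LFam) : (toK k n L).2.length ≤ 2 * (toK k n L).1 := by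
  have h1 : (toK k n L).2.length ≤ 2 * L.length := by
    show (dedupF ((splitKL k n L).map dedupC)).length ≤ _
    refine (sps_dedup_len _).trans ?_
    rw [List.length_map]
    exact sps_split_len k n L
  have h2 : (toK k n L).1 = n + L.length := rfl
  omega

theorem sps_isCNF_mono {k n n' : ℕ} {F : List (List Lit)} (h : IsCNF k n F) (hn : n ≤ n') :
    IsCNF k n' F :=
  ⟨fun C hC => ⟨(h.1 C hC).1, (h.1 C hC).2.1, fun l hl => ((h.1 C hC).2.2 l hl).trans_le hn⟩, h.2⟩

theorem sps_leaf {K : ℕ} {γ : ℝ} (P : SpK K γ) {C₀ : ℝ} {a : ℕ} (ha : 1 ≤ a)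
    (haC : 2 ≤ C₀ * a) {ε : ℝ} (hε : 0 ≤ ε) {k : ℕ} (hk : 3 ≤ k) (hK : K = k + 1)
    {m : ℕ} {N : Nd1} (h : P.Pre m N) (hl : P.leafQ N = true) :
    ∃ (n' : ℕ) (G : LFam), sps_out a k N = encodeCNF n' G ∧ DensK k C₀ n' G ∧
      (Satisfiable G ↔ Satisfiable N.2) ∧
      ε * n' ≤ P.potN (ε * a * (1 + P.Kc)) N + ε * a := by
  classical
  have hεa : 0 ≤ ε * a := by positivity
  obtain ⟨n', G, h1, h2, h3, h4⟩ := P.leaf_spec hεa hk hK h hl
  obtain ⟨n, L⟩ := N
  obtain ⟨p1, p2⟩ := h
  simp only at p1 p2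
  subst p1
  by_cases hd : Dead (toF L)
  · have hdL : deadL L = true := (deadL_iff p2.linv).2 hd
    refine ⟨a, [[]], ?_, ⟨⟨?_, by simp⟩, ?_⟩, ?_, ?_⟩
    · unfold sps_out
      simp only [hdL, if_true]
    · intro C hC
      rw [List.mem_singleton] at hC
      subst hC
      simp
    · simp only [List.length_cons, List.length_nil, zero_add, Nat.cast_one]
      linarith
    · constructor
      · rintro ⟨v, hv⟩
        obtain ⟨l, hl, _⟩ := hv [] (by simp)
        simp at hl
      · intro hs
        exact absurd hs (not_satisfiable_of_dead hd)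
    · unfold SpK.potN
      simp only [if_pos hd]
      linarith
  · have hdL : deadL L = false := by rw [← Bool.not_eq_true, deadL_iff p2.linv]; exact hd
    have hlen : ∀ C ∈ L, C.length ≤ k + 1 := by
      intro C hC
      rw [← p2.linv.card_eq hC, ← hK]
      exact (p2.inv.size _ (toF_mem hC)).2
    have hvar : ∀ C ∈ L, ∀ l ∈ C, l.1 < n := by
      intro C hC l hl
      exact mem_lits.1 (p2.inv.ov _ (toF_mem hC) (List.mem_toFinset.2 hl))
    obtain ⟨r1, r2⟩ := toK_spec hk hlen hvar
    have hmul : (toK k n L).1 ≤ a * (toK k n L).1 := Nat.le_mul_of_pos_left _ ha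
    refine ⟨a * (toK k n L).1, (toK k n L).2, ?_, ⟨sps_isCNF_mono r1 hmul, ?_⟩, r2, ?_⟩
    · unfold sps_out
      simp only [hdL, Bool.false_eq_true, if_false]
    · have h5 : ((toK k n L).2.length : ℝ) ≤ 2 * (toK k n L).1 := by
        exact_mod_cast sps_toK_len k n L
      push_cast
      have h6 : (0:ℝ) ≤ ((toK k n L).1 : ℝ) := Nat.cast_nonneg _
      calc ((toK k n L).2.length : ℝ) ≤ 2 * (toK k n L).1 := h5
        _ ≤ (C₀ * a) * (toK k n L).1 := mul_le_mul_of_nonneg_right haC h6
        _ = _ := by ring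
    · -- the pot bound, from `leaf_spec`
      have hout : outQK k (n, L) = encodeCNF (toK k n L).1 (toK k n L).2 := by
        unfold outQK
        simp only [hdL, Bool.false_eq_true, if_false]
      -- recompute the bound
      unfold SpK.potN
      simp only [if_neg hd]
      have hκ := P.κ_le_pot (B := ε * a * (1 + P.Kc)) p2.inv hd
      have hκ0 := P.κ_nonneg
      have hhits : hitsAll P.W.th (rulesList K) L = [] := by
        unfold SpK.leafQ at hl
        simpa [hdL] using hl
      have hno : ∀ c p, 1 ≤ p → p < c → c ≤ K → NoHit P.W.th c p (toF L) :=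
        fun c p a b c' => p2.noHit hhits a b c'
      have hcard : L.length = ∑ i ∈ Finset.range (K + 1), num (toF L) i := by
        have h1 := wgt_eq_sum (a := fun _ => 1) (𝒞 := toF L) (k := K)
          (fun C hC => (p2.inv.size C hC).2)
        unfold wgt at h1
        simp only [one_mul, Finset.sum_const, nsmul_eq_mul, mul_one] at h1
        rw [card_toF p2.linv] at h1
        exact_mod_cast h1
      have hL : L.length ≤ P.Kc * n := by
        rw [hcard]
        unfold SpK.Kc
        rw [Finset.sum_mul]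
        refine Finset.sum_le_sum fun i hi => ?_
        rw [Finset.mem_range] at hi
        split_ifs with h1
        · rw [one_mul]
          have : i = 0 ∨ i = 1 := by omega
          rcases this with rfl | rfl
          · rw [P.num_zero p2.inv]; omega
          · exact num_one_le p2.inv.ov hd
        · exact P.W.num_le_of_noHit p2.inv (c := i) (by omega)
            (hno i (i - 1) (by omega) (by omega) (by omega))
      have hLR : (L.length : ℝ) ≤ P.Kc * n := by exact_mod_cast hL
      have e : ((toK k n L).1 : ℝ) = n + L.length := by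
        unfold toK
        push_cast
        ring
      push_cast
      rw [e]
      have h5 : ε * a * (n + L.length) ≤ ε * a * (1 + P.Kc) * n := by
        have := mul_le_mul_of_nonneg_left hLR hεa
        linarith
      linarith

end Pool.Agent.H94.DS

namespace Pool.Agent.H83.E14

open Pool.Agent.H14 Pool.Agent.H14.ETH Pool.Agent.H14.ETH.SpK Pool.Agent.H14.XCmd Turing
open Pool.Agent.H94.DS

theorem sps_pOut (a k : ℕ) : Poly (sps_out a k) := by
  refine (Poly.cond (c := fun N : Nd1 => deadL N.2) (f := fun _ : Nd1 => encodeCNF a [[]])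
    (g := fun N : Nd1 => encodeCNF (a * (toK k N.1 N.2).1) (toK k N.1 N.2).2)
    (pDeadL Poly.snd) (Poly.const _) ?_).congr fun N => ?_
  · exact pEncodeCNF (Poly.mul (Poly.const a) (Poly.fst' (pToK k Poly.fst Poly.snd)))
      (Poly.snd' (pToK k Poly.fst Poly.snd))
  · unfold sps_out
    cases deadL N.2 <;> rfl

theorem sps_succ {C₀ : ℝ} {a : ℕ} (ha : 1 ≤ a) (haC : 2 ≤ C₀ * a) {k : ℕ} (hk : 3 ≤ k)
    {γ ε : ℝ} (P : SpK (k + 1) γ) (hε : 0 ≤ ε)
    (h3 : SolvableOn (DensK k C₀) ε) {ρ' : ℝ} (hρ : ε * a * (1 + P.Kc) + γ < ρ') :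
    SolvableIn (k + 1) ρ' := by
  classical
  obtain ⟨M, c, hM⟩ := h3
  have hη := P.η_pos
  have hγ := P.hγ
  have hεa : 0 ≤ ε * a := by positivity
  have hpw : (1:ℝ) ≤ (2 : ℝ) ^ (ε * a) := Real.one_le_rpow (by norm_num) hεa
  set C : ℝ := max c 1 * (2 : ℝ) ^ (ε * a) with hC
  have hm1 : (1:ℝ) ≤ max c 1 := le_max_right _ _
  have hC1 : 1 ≤ C := by
    rw [hC]
    nlinarith
  set B : ℝ := ε * a * (1 + P.Kc) with hB
  have hB0 : 0 ≤ B := by positivity
  set K1 : ℕ := ⌈(P.κ + (B + γ) * (k + 1)) / P.η⌉₊ with hK1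
  set K2 : ℕ := ⌈(B + γ) / P.η⌉₊ with hK2
  set D : ℝ := (2 : ℝ) ^ (P.κ + (B + γ) * (k + 1)) with hD
  have hD0 : 0 < D := by positivity
  refine solvableIn_of_eval (M := M) (isLeaf := P.leafQ) (childA := P.chA) (childB := P.chB)
    (out := (sps_out a k)) (init := (rootK (k + 1))) (pLeafQK P) (pChAK P) (pChBK P) (sps_pOut a k)
    (pRootK (k + 1))
    (C := max C 2 * D) (ρ := B + γ)
    (q := fun n => (szBK (k + 1) (n + (k + 1)) + (K1 + K2 * n)) +
      (n + ((k + 1 + 1) * (2 * n + 1) ^ (k + 1)) * ((k + 1) * n + 1))) ?_ ?_ hρ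
  · refine (((szBK_PB (k + 1)).comp (PB.id.add (PB.const (k + 1)))).add ((PB.const K1).add
      ((PB.const K2).mul PB.id))).add (PB.id.add ((PB.const (k + 1 + 1)).mul
        ((((PB.const 2).mul PB.id).add (PB.const 1)).pow (k + 1)) |>.mul
          (((PB.const (k + 1)).mul PB.id).add (PB.const 1))))
  · intro n F hF
    have hroot : (rootK (k + 1)) (encodeCNF n F) = (n + (k + 1), initF (k + 1) n F) := by
      unfold rootK
      rw [parse_encodeCNF]
    have hpre := rootK_pre (by omega) P hF
    have key := eval_of_pot (M := M) (isLeaf := P.leafQ) (childA := P.chA) (childB := P.chB)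
      (out := (sps_out a k)) (S := szBK (k + 1) (n + (k + 1))) (P.Pre (n + (k + 1))) (P.potN B)
      (fun N => decide (Satisfiable N.2)) (η := P.η) (C := C) hη
      (fun N hN => sz_nodeK_le hN) (fun N hN => P.potN_nonneg hB0 hN) ?_ ?_ (by linarith)
      _ hpre
    · obtain ⟨t, cc, d, he, ht, hcc, hd⟩ := key
      have hans : (decide (Satisfiable (initF (k + 1) n F))) = decide (Satisfiable F) :=
        decide_eq_decide.2 (satisfiable_initF hF)
      have hpot : P.potN B (n + (k + 1), initF (k + 1) n F) ≤ P.κ + (B + γ) * (n + (k + 1)) := by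
        unfold potN
        split_ifs with hdead
        · have := P.κ_nonneg
          have : 0 ≤ (B + γ) * (n + (k + 1)) := by positivity
          linarith
        · unfold pot
          have hw : 0 ≤ wgt P.W.a (toF (initF (k + 1) n F)) :=
            Finset.sum_nonneg fun X _ => P.W.a_nonneg _
          push_cast
          linarith
      have h2pot : (2 : ℝ) ^ P.potN B (n + (k + 1), initF (k + 1) n F) ≤ D * (2 : ℝ) ^ ((B + γ) * n) := by
        rw [hD, ← Real.rpow_add (by norm_num)]
        refine Real.rpow_le_rpow_of_exponent_le (by norm_num) ?_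
        linarith
      have hX : (0 : ℝ) ≤ D * (2 : ℝ) ^ ((B + γ) * n) := by positivity
      have hlen := length_encodeCNF_le hF
      refine ⟨t, cc, d, szBK (k + 1) (n + (k + 1)), ?_, ?_, ?_, ?_, ?_, ?_⟩
      · rw [hroot]
        have e : @decide (Satisfiable F) (Classical.propDecidable _) = decide (Satisfiable F) := by
          congr
        rw [e, ← hans]
        exact he
      · calc (t : ℝ) ≤ C * (2 : ℝ) ^ P.potN B (n + (k + 1), initF (k + 1) n F) := ht
          _ ≤ C * (D * (2 : ℝ) ^ ((B + γ) * n)) := mul_le_mul_of_nonneg_left h2pot (by linarith)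
          _ ≤ max C 2 * (D * (2 : ℝ) ^ ((B + γ) * n)) :=
            mul_le_mul_of_nonneg_right (le_max_left _ _) hX
          _ = _ := by ring
      · calc (cc : ℝ) ≤ 2 * (2 : ℝ) ^ P.potN B (n + (k + 1), initF (k + 1) n F) := by linarith
          _ ≤ 2 * (D * (2 : ℝ) ^ ((B + γ) * n)) := mul_le_mul_of_nonneg_left h2pot (by linarith)
          _ ≤ max C 2 * (D * (2 : ℝ) ^ ((B + γ) * n)) :=
            mul_le_mul_of_nonneg_right (le_max_right _ _) hX
          _ = _ := by ring
      · have h1 : (d : ℝ) ≤ K1 + K2 * n := by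
          have h2 : (d : ℝ) ≤ (P.κ + (B + γ) * (n + (k + 1))) / P.η :=
            hd.trans (div_le_div_of_nonneg_right hpot hη.le)
          have h3 : (P.κ + (B + γ) * (n + (k + 1))) / P.η =
              (P.κ + (B + γ) * (k + 1)) / P.η + (B + γ) / P.η * n := by
            field_simp
            ring
          have h4 := Nat.le_ceil ((P.κ + (B + γ) * (k + 1)) / P.η)
          have h5 := mul_le_mul_of_nonneg_right (Nat.le_ceil ((B + γ) / P.η))
            (Nat.cast_nonneg (α := ℝ) n)
          rw [h3] at h2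
          linarith
        have h6 : d ≤ K1 + K2 * n := by exact_mod_cast h1
        omega
      · omega
      · omega
    · intro N hN hl
      obtain ⟨n', G, h1, h2, h3, h4⟩ := sps_leaf P ha haC hε hk rfl hN hl
      obtain ⟨t, ht, hans⟩ := hM n' G h2
      refine ⟨t, ?_, ?_⟩
      · rw [h1]
        have e : decide (Satisfiable N.2) = @decide (Satisfiable G) (Classical.propDecidable _) := by
          rw [decide_eq_decide]
          exact h3.symm
        rw [e]
        exact hans
      · refine ht.trans ?_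
        have h5 : (2 : ℝ) ^ (ε * n') ≤ (2 : ℝ) ^ (ε * a) * (2 : ℝ) ^ P.potN B N := by
          rw [← Real.rpow_add (by norm_num)]
          exact Real.rpow_le_rpow_of_exponent_le (by norm_num) (by linarith)
        have h6 : (0 : ℝ) ≤ (2 : ℝ) ^ (ε * n') := by positivity
        calc c * (2 : ℝ) ^ (ε * n') ≤ max c 1 * (2 : ℝ) ^ (ε * n') :=
              mul_le_mul_of_nonneg_right (le_max_left _ _) h6
          _ ≤ max c 1 * ((2 : ℝ) ^ (ε * a) * (2 : ℝ) ^ P.potN B N) :=
              mul_le_mul_of_nonneg_left h5 (by linarith)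
          _ = _ := by rw [hC]; ring
    · intro N hN hl
      obtain ⟨h1, h2, h3, x, y, h5⟩ := P.step_spec hB0 hN hl
      refine ⟨h1, h2, ?_, x, y, h5⟩
      rw [← Bool.decide_or]
      exact decide_eq_decide.2 h3

end Pool.Agent.H83.E14

namespace Pool.Agent.H94.DS

open Pool.Agent.H14.ETH

theorem satExp_four_eq_zero_of_dens {C₀ : ℝ} (hC : 0 < C₀)
    (h : ∀ ε : ℝ, 0 < ε → SolvableOn (DensK 3 C₀) ε) : satExp 4 = 0 := by
  refine le_antisymm ?_ (satExp_nonneg _)
  refine le_of_forall_gt_imp_ge_of_dense fun ρ hρ => ?_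
  refine satExp_le hρ.le ?_
  -- the density
  obtain ⟨a0, ha0⟩ := exists_nat_gt (2 / C₀)
  obtain ⟨a, ha, haC⟩ : ∃ a : ℕ, 1 ≤ a ∧ 2 ≤ C₀ * a := by
    refine ⟨a0 + 1, by omega, ?_⟩
    rw [div_lt_iff₀ hC] at ha0
    push_cast
    nlinarith
  -- the sparsification parameters
  obtain ⟨m, hm⟩ := exists_nat_gt (4 / ρ)
  have hm0 : (0 : ℝ) < m := lt_trans (by positivity) hm
  have hm1 : 1 ≤ m := by exact_mod_cast (Nat.cast_pos.1 hm0 : 0 < m)
  obtain ⟨P⟩ := exists_spK (3 + 1) m (by omega) hm1
  have hγ : 2 / (m : ℝ) < ρ / 2 := by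
    rw [div_lt_iff₀ hρ] at hm
    rw [div_lt_iff₀ hm0]
    linarith
  have ha0' : (0:ℝ) < a := by exact_mod_cast ha
  have hK : (0 : ℝ) < a * (1 + P.Kc) := by positivity
  have hε : 0 < ρ / 2 / (a * (1 + P.Kc)) / 2 := by positivity
  refine Pool.Agent.H83.E14.sps_succ ha haC (k := 3) le_rfl P hε.le (h _ hε) ?_
  have h2 : ρ / 2 / (a * (1 + P.Kc)) / 2 * a * (1 + P.Kc) = ρ / 4 := by field_simp; norm_num
  rw [h2]
  linarith

end Pool.Agent.H94.DS
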