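import Pool.Agent.H94.DS.MAIN
import Pool.Agent.H94.DS.SPS

/-!
# The exponent of SAT is strictly increasing in the density
-/

set_option autoImplicit false

namespace Pool.Agent.H94.DS

open Pool.Agent.H14.ETH Pool.Agent.H83.B13

variable {Δ Δ' : ℝ}

/-- A rational density between. -/
theorem exists_PQ (h0 : 0 < Δ) (h : Δ < Δ') : ∃ P Q : ℕ, 0 < P ∧ 0 < Q ∧
    (Δ + Δ') / 2 < (P : ℝ) / Q ∧ (P : ℝ) / Q < Δ' := by
  obtain ⟨r, hr1, hr2⟩ := exists_rat_btwn (show (Δ + Δ') / 2 < Δ' by linarith)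
  have hr0 : (0 : ℝ) < r := lt_trans (by linarith) hr1
  have hr0' : 0 < r := by exact_mod_cast hr0
  have hrr : ((r.num.toNat : ℕ) : ℝ) / (r.den : ℝ) = r := by
    have e1 : ((r.num.toNat : ℕ) : ℝ) = ((r.num : ℤ) : ℝ) := by
      have : ((r.num.toNat : ℕ) : ℤ) = r.num := Int.toNat_of_nonneg (Rat.num_nonneg.2 hr0'.le)
      exact_mod_cast congrArg (fun z : ℤ => (z : ℝ)) this
    rw [e1]
    exact (Rat.cast_def r).symm
  refine ⟨r.num.toNat, r.den, ?_, r.den_pos, ?_, ?_⟩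
  · have : 0 < r.num := Rat.num_pos.2 hr0'
    omega
  · rw [hrr]; exact hr1
  · rw [hrr]; exact hr2

theorem dens_solvable (h0 : 0 < Δ) {σ : ℝ} (hσ : 1 < σ) : SolvableOn (Dens Δ) σ := by
  obtain ⟨P, Q, hP, hQ, h1, h2⟩ := exists_PQ h0 (show Δ < Δ + 1 by linarith)
  obtain ⟨p, -⟩ := exists_par h0 hP hQ (show Δ < (P : ℝ) / Q by linarith) one_pos le_rfl
  exact dens_of_par p one_pos h0 hP hQ (by linarith) hσ.le
    (solvableOn_of_solvableIn (solvableIn_of_one_lt (2 * p.w - 2) hσ) fun _ _ h => h.1)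
    (by linarith [p.hδ])

theorem densExp_le_one (h0 : 0 < Δ) : densExp Δ ≤ 1 := by
  refine le_of_forall_gt_imp_ge_of_dense fun σ hσ => ?_
  exact densExp_le (by linarith) (dens_solvable h0 hσ)

theorem densSatExp_le_densExp (k : ℕ) (h0 : 0 < Δ) : densSatExp k Δ ≤ densExp Δ := by
  refine le_csInf ⟨2, by norm_num, dens_solvable h0 (by norm_num)⟩ ?_
  rintro s ⟨hs0, hs⟩
  exact densSatExp_le hs0 (hs.anti fun n F hF => ⟨⟨k, hF.1⟩, hF.2⟩)

/-- The explicit gap. -/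
theorem gap (h0 : 0 < Δ) (h : Δ < Δ') : ∃ k : ℕ,
    densExp Δ + (densExp Δ * (Δ' - Δ)) ^ 6 / (2 ^ 31 * (1 + Δ') ^ 9) ≤ densSatExp k Δ' := by
  rcases (dens_nonneg Δ).eq_or_lt with hd | hd
  · refine ⟨3, ?_⟩
    rw [← hd]
    simpa using densSat_nonneg 3 Δ'
  · obtain ⟨P, Q, hP, hQ, h1, h2⟩ := exists_PQ h0 h
    have hlt : Δ < (P : ℝ) / Q := by linarith
    obtain ⟨p, hp⟩ := exists_par h0 hP hQ hlt hd (densExp_le_one h0)
    refine ⟨2 * p.w - 2, ?_⟩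
    have key : densExp Δ + p.δ ≤ densSatExp (2 * p.w - 2) ((P : ℝ) / Q) := by
      by_contra hcon
      rw [not_le] at hcon
      obtain ⟨σ, ⟨hσ0, hσ1⟩, hσ2⟩ := exists_lt_of_csInf_lt (densK_set_nonempty _ _) hcon
      set τ := max σ (densExp Δ) with hτ
      have hτ1 : τ < densExp Δ + p.δ := max_lt hσ2 (by linarith [p.hδ])
      have hτ2 : densExp Δ ≤ τ := le_max_right _ _
      have hτ3 : SolvableOn (DensK (2 * p.w - 2) ((P : ℝ) / Q)) τ := hσ1.mono (le_max_left _ _)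
      -- an exponent strictly between
      set ρ := max ((τ - p.δ + densExp Δ) / 2) 0 with hρ
      have hρ1 : τ - p.δ < ρ := lt_of_lt_of_le (by linarith) (le_max_left _ _)
      have hρ2 : ρ < densExp Δ := max_lt (by linarith) hd
      have := densExp_le (le_max_right _ _) (dens_of_par p hd h0 hP hQ hlt hτ2 hτ3 hρ1)
      linarith
    have hmono : densSatExp (2 * p.w - 2) ((P : ℝ) / Q) ≤ densSatExp (2 * p.w - 2) Δ' :=
      densSatExp_mono le_rfl h2.le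
    have hδ : (densExp Δ * (Δ' - Δ)) ^ 6 / (2 ^ 31 * (1 + Δ') ^ 9) ≤ p.δ := by
      refine le_trans ?_ hp
      have hPQ0 : (0 : ℝ) < (P : ℝ) / Q := h0.trans hlt
      have hΔ' : 0 < Δ' := h0.trans h
      have e1 : (densExp Δ * (Δ' - Δ)) ^ 6 / (2 ^ 31 * (1 + Δ') ^ 9) =
          (densExp Δ * ((Δ' - Δ) / 2)) ^ 6 / (2 ^ 25 * (1 + Δ') ^ 9) := by
        rw [div_eq_div_iff (by positivity) (by positivity)]
        ring
      rw [e1]
      refine div_le_div₀ (by positivity) ?_ (by positivity) ?_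
      · refine pow_le_pow_left₀ (mul_nonneg hd.le (by linarith)) ?_ 6
        exact mul_le_mul_of_nonneg_left (by linarith) hd.le
      · exact mul_le_mul_of_nonneg_left (pow_le_pow_left₀ (by linarith) (by linarith) 9)
          (by norm_num)
    linarith

theorem dens_pos_of_eth (h0 : 0 < Δ) (h : ∀ k : ℕ, 3 ≤ k → 0 < satExp k) : 0 < densExp Δ := by
  refine lt_of_lt_of_le ?_ (densSatExp_le_densExp 3 h0)
  by_contra hcon
  have h1 : densSatExp 3 Δ = 0 := le_antisymm (not_lt.1 hcon) (densSat_nonneg 3 Δ)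
  have h2 := satExp_four_eq_zero_of_dens h0 (fun ε hε => by
    have h3 : sInf {s : ℝ | 0 ≤ s ∧ SolvableOn (DensK 3 Δ) s} < ε := by
      have : densSatExp 3 Δ < ε := by rw [h1]; exact hε
      exact this
    obtain ⟨σ, ⟨_, hσ1⟩, hσ2⟩ := exists_lt_of_csInf_lt (densK_set_nonempty _ _) h3
    exact hσ1.mono hσ2.le)
  have h3 := h 4 (by norm_num)
  rw [h2] at h3
  exact lt_irrefl _ h3

theorem eth_iff_dens (h0 : 0 < Δ) (h : Δ < Δ') :
    (∀ k : ℕ, 3 ≤ k → 0 < satExp k) ↔ ∃ k : ℕ, densExp Δ < densSatExp k Δ' := by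
  constructor
  · intro hE
    obtain ⟨k, hk⟩ := gap h0 h
    refine ⟨k, lt_of_lt_of_le ?_ hk⟩
    have hd := dens_pos_of_eth h0 hE
    have h1 : 0 < Δ' - Δ := by linarith
    have h2 : 0 < Δ' := h0.trans h
    have : 0 < (densExp Δ * (Δ' - Δ)) ^ 6 / (2 ^ 31 * (1 + Δ') ^ 9) := by positivity
    linarith
  · rintro ⟨k, hk⟩
    have h1 : 0 < satExp k :=
      lt_of_lt_of_le (lt_of_le_of_lt (dens_nonneg Δ) hk) (densSatExp_le_satExp k Δ')
    rcases Nat.lt_or_ge k 3 with h3 | h3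
    · exact (eth_iff_pos le_rfl).2 (lt_of_lt_of_le h1 (satExp_mono (by omega)))
    · exact (eth_iff_pos h3).2 h1

theorem eth_of_dens_pos (h0 : 0 < Δ) (h : 0 < densExp Δ) : ∀ k : ℕ, 3 ≤ k → 0 < satExp k := by
  obtain ⟨k, hk⟩ := gap h0 (show Δ < Δ + 1 by linarith)
  refine (eth_iff_dens h0 (show Δ < Δ + 1 by linarith)).2 ⟨k, lt_of_lt_of_le ?_ hk⟩
  have h2 : 0 < Δ + 1 - Δ := by linarith
  have : 0 < (densExp Δ * (Δ + 1 - Δ)) ^ 6 / (2 ^ 31 * (1 + (Δ + 1)) ^ 9) := by positivity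
  linarith

/-- The main theorem. -/
theorem main (h0 : 0 < Δ) (h : Δ < Δ') :
    ((∀ k : ℕ, 3 ≤ k → 0 < satExp k) ↔ densExp Δ < densExp Δ') ∧
    ∃ k : ℕ, densExp Δ + (densExp Δ * (Δ' - Δ)) ^ 6 / (2 ^ 31 * (1 + Δ') ^ 9) ≤
      densSatExp k Δ' ∧ densSatExp k Δ' ≤ densExp Δ' := by
  have hΔ' : 0 < Δ' := h0.trans h
  refine ⟨⟨fun hE => ?_, fun hlt => ?_⟩, ?_⟩
  · obtain ⟨k, hk⟩ := (eth_iff_dens h0 h).1 hE
    exact lt_of_lt_of_le hk (densSatExp_le_densExp k hΔ')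
  · exact eth_of_dens_pos hΔ' (lt_of_le_of_lt (dens_nonneg Δ) hlt)
  · obtain ⟨k, hk⟩ := gap h0 h
    exact ⟨k, hk, densSatExp_le_densExp k hΔ'⟩

end Pool.Agent.H94.DS
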