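import Pool.Agent.H94.DS.Tree

/-!
# Running times on a class of formulas
-/

set_option autoImplicit false

namespace Pool.Agent.H94.DS

open Turing Pool.Agent.H83 Pool.Agent.H14 Pool.Agent.H14.ETH Pool.Agent.H14.XCmd
open Pool.Agent.H83.B13

variable {K K' : ℕ → List (List Lit) → Prop}

theorem SolvableOn.mono {s s' : ℝ} (h : SolvableOn K s) (hs : s ≤ s') : SolvableOn K s' := by
  obtain ⟨M, c, h⟩ := h
  refine ⟨M, max c 0, fun n F hF => ?_⟩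
  obtain ⟨t, ht, h⟩ := h n F hF
  refine ⟨t, ht.trans ?_, h⟩
  have h1 : (2 : ℝ) ^ (s * n) ≤ (2 : ℝ) ^ (s' * n) :=
    Real.rpow_le_rpow_of_exponent_le (by norm_num)
      (mul_le_mul_of_nonneg_right hs (Nat.cast_nonneg n))
  have h2 : (0 : ℝ) ≤ (2 : ℝ) ^ (s * n) := by positivity
  calc c * (2 : ℝ) ^ (s * n) ≤ max c 0 * (2 : ℝ) ^ (s * n) :=
        mul_le_mul_of_nonneg_right (le_max_left _ _) h2
    _ ≤ _ := mul_le_mul_of_nonneg_left h1 (le_max_right _ _)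

theorem SolvableOn.anti {s : ℝ} (h : SolvableOn K s) (hK : ∀ n F, K' n F → K n F) :
    SolvableOn K' s := by
  obtain ⟨M, c, h⟩ := h
  exact ⟨M, c, fun n F hF => h n F (hK n F hF)⟩

theorem solvableOn_of_solvableIn {k : ℕ} {s : ℝ} (h : SolvableIn k s)
    (hK : ∀ n F, K n F → IsCNF k n F) : SolvableOn K s := by
  obtain ⟨M, c, h⟩ := h
  exact ⟨M, c, fun n F hF => h n F (hK n F hF)⟩

theorem solvableOn_of_eval {Node : Type} [Enc Node] {M : TM2ComputableAux Sym Bool}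
    {isLeaf : Node → Bool} {childA childB : Node → Node} {out : Node → List Sym}
    {init : List Sym → Node}
    (hl : Poly isLeaf) (hA : Poly childA) (hB : Poly childB) (ho : Poly out) (hi : Poly init)
    {C ρ : ℝ} {q : ℕ → ℕ} (hq : PB q)
    (h : ∀ (n : ℕ) (F : List (List Lit)), K n F → ∃ t c d S : ℕ,
      Eval M isLeaf childA childB out S (init (encodeCNF n F))
        (@decide (Satisfiable F) (Classical.propDecidable _)) t c d ∧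
      (t : ℝ) ≤ C * (2 : ℝ) ^ (ρ * n) ∧ (c : ℝ) ≤ C * (2 : ℝ) ^ (ρ * n) ∧ d ≤ q n ∧ S ≤ q n ∧
      (encodeCNF n F).length ≤ q n)
    {ρ' : ℝ} (hρ : ρ < ρ') : SolvableOn K ρ' := by
  obtain ⟨M', p, hp, hM'⟩ := driver_exists M hl hA hB ho hi
  obtain ⟨p', hp', hpm, hpp'⟩ := hp.exists_mono
  obtain ⟨D, hD, hD'⟩ := pb_exp_bound (hp'.comp (((PB.const 3).mul hq).add (PB.const 0)))
    (sub_pos.2 hρ)
  refine ⟨M', max C 0 * D + max C 0, fun n F hF => ?_⟩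
  obtain ⟨t, c, d, S, he, ht, hc, hd, hS, hw⟩ := h n F hF
  have hans := hM' _ _ t c d S he
  refine ⟨_, ?_, hans⟩
  push_cast
  have h1 : (p ((encodeCNF n F).length + S + d) : ℝ) ≤ D * (2 : ℝ) ^ ((ρ' - ρ) * n) := by
    refine le_trans ?_ (hD' n)
    exact_mod_cast (hpp' _).trans (hpm (by omega))
  have hC0 : C ≤ max C 0 := le_max_left _ _
  have hC1 : (0 : ℝ) ≤ max C 0 := le_max_right _ _
  have hρn : (0 : ℝ) ≤ (2 : ℝ) ^ (ρ * n) := by positivity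
  have hcc : (c : ℝ) ≤ max C 0 * (2 : ℝ) ^ (ρ * n) := hc.trans (mul_le_mul_of_nonneg_right hC0 hρn)
  have htt : (t : ℝ) ≤ max C 0 * (2 : ℝ) ^ (ρ * n) := ht.trans (mul_le_mul_of_nonneg_right hC0 hρn)
  have h2 : (2 : ℝ) ^ (ρ * n) * (2 : ℝ) ^ ((ρ' - ρ) * n) = (2 : ℝ) ^ (ρ' * n) := by
    rw [← Real.rpow_add (by norm_num)]; ring_nf
  have h3 : (2 : ℝ) ^ (ρ * n) ≤ (2 : ℝ) ^ (ρ' * n) :=
    Real.rpow_le_rpow_of_exponent_le (by norm_num)
      (mul_le_mul_of_nonneg_right hρ.le (Nat.cast_nonneg n))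
  calc (c : ℝ) * p ((encodeCNF n F).length + S + d) + t
      ≤ (max C 0 * (2 : ℝ) ^ (ρ * n)) * (D * (2 : ℝ) ^ ((ρ' - ρ) * n))
        + max C 0 * (2 : ℝ) ^ (ρ * n) := by
        refine add_le_add (mul_le_mul hcc h1 (Nat.cast_nonneg _) (by positivity)) htt
    _ = max C 0 * D * (2 : ℝ) ^ (ρ' * n) + max C 0 * (2 : ℝ) ^ (ρ * n) := by rw [← h2]; ring
    _ ≤ (max C 0 * D + max C 0) * (2 : ℝ) ^ (ρ' * n) := by
        have := mul_le_mul_of_nonneg_left h3 hC1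
        linarith

/-! ### The exponents -/

theorem dens_nonneg (Δ : ℝ) : 0 ≤ densExp Δ := Real.sInf_nonneg fun _ h => h.1

theorem densSat_nonneg (k : ℕ) (Δ : ℝ) : 0 ≤ densSatExp k Δ := Real.sInf_nonneg fun _ h => h.1

theorem densExp_le {Δ s : ℝ} (h0 : 0 ≤ s) (h : SolvableOn (Dens Δ) s) : densExp Δ ≤ s :=
  csInf_le ⟨0, fun _ h => h.1⟩ ⟨h0, h⟩

theorem densSatExp_le {k : ℕ} {Δ s : ℝ} (h0 : 0 ≤ s) (h : SolvableOn (DensK k Δ) s) :
    densSatExp k Δ ≤ s := csInf_le ⟨0, fun _ h => h.1⟩ ⟨h0, h⟩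

theorem densK_set_nonempty (k : ℕ) (Δ : ℝ) :
    {s : ℝ | 0 ≤ s ∧ SolvableOn (DensK k Δ) s}.Nonempty :=
  ⟨2, by norm_num, solvableOn_of_solvableIn (solvableIn_of_one_lt k (by norm_num))
    fun _ _ h => h.1⟩

theorem densSatExp_le_satExp (k : ℕ) (Δ : ℝ) : densSatExp k Δ ≤ satExp k := by
  refine le_csInf (set_nonempty k) ?_
  rintro s ⟨h0, hs⟩
  exact densSatExp_le h0 (solvableOn_of_solvableIn hs fun _ _ h => h.1)

theorem densK_mono {k k' : ℕ} {Δ Δ' : ℝ} (hk : k ≤ k') (hΔ : Δ ≤ Δ') (n : ℕ)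
    (F : List (List Lit)) (h : DensK k Δ n F) : DensK k' Δ' n F :=
  ⟨⟨fun C hC => ⟨(h.1.1 C hC).1, (h.1.1 C hC).2.1.trans hk, (h.1.1 C hC).2.2⟩, h.1.2⟩,
    h.2.trans (mul_le_mul_of_nonneg_right hΔ (Nat.cast_nonneg n))⟩

theorem densSatExp_mono {k k' : ℕ} {Δ Δ' : ℝ} (hk : k ≤ k') (hΔ : Δ ≤ Δ') :
    densSatExp k Δ ≤ densSatExp k' Δ' := by
  refine le_csInf (densK_set_nonempty k' Δ') ?_
  rintro s ⟨h0, hs⟩
  exact densSatExp_le h0 (hs.anti (densK_mono hk hΔ))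

end Pool.Agent.H94.DS
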