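import Pool.Agent.H94.DS.STA

/-!
# Module LFA: a leaf with slack in the density: elimination of variables

Plan. Model: `Pool/Agent/H14/Reduce.lean` (`reduce_count`, `reduce_many`, `reduce_cnf`), with
`N.2.1 : List Lit` in the role of `unitsL L` and `L` in the role of `coreL L`. Let `n = N.1`,
`U = N.2.1`, `u = U.length`, `m = L.length`, `I = greedyL T n L U`, `J = indep P Q T N`, a prefix of
`I` of length `j = min I.length ((P (n - u) - Q m) / (Q T² + P))` (lemmas `takeN_eq`, `divN_eq`).
* The variables of `I` are pairwise not adjacent, are not in `U`, and have `occL ≤ T`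
  (`greedy_spec`), the same for `J`; `IndepL J L` as in `reduce_cnf` (no complementary pairs).
* `(elimL J L).length ≤ m + j T²`: each variable of `J` gives at most `T * T` resolvents.
  So `Q * G.length ≤ Q m + j Q T² ≤ P (n - u - j)`, because `j (Q T² + P) ≤ P (n - u) - Q m`.
* `rankL (J ++ U.map Prod.fst) n + j + u = n` by `rankL_add` (the variables are different).
* `G = renL (J ++ U.map Prod.fst) (cleanF (elimL J L))` is a `(2w-2)`-CNF, equisatisfiable with `L`
  (`satisfiable_renL`, `satisfiable_dedupF`, `satisfiable_map_dedupC`, `satisfiable_elimL`,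
  `isCNF_renL`, `length_resL`, `dedupF_pairwise`).
* Size of `j`: if `j = I.length`: by `card_high_le`, `(T + 1) #high ≤ w m`, and
  `Q m < P (n - u)`, `2 w P ≤ Q (T + 1)` give `2 #high ≤ n - u`; so at least half of the `n - u`
  variables outside `U` have `occL ≤ T`, and `card_low_le` gives
  `n - u ≤ 2 (1 + T (w - 1)) I.length`. Otherwise `j` is the quotient, and
  `P (n - u) - Q m < (j + 1) (Q T² + P)`.
-/

set_option autoImplicit false

namespace Pool.Agent.H94.DS

open Pool.Agent.H14.ETH

theorem LFA_iter {β : Type} (k : ℕ) : ∀ l : List β, List.tail^[k] l = l.drop k := by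
  induction k with
  | zero => intro l; rfl
  | succ k ih =>
    intro l
    rw [Function.iterate_succ_apply, ih]
    cases l with
    | nil => simp
    | cons a l => rfl

theorem takeN_eq {β : Type} (j : ℕ) (l : List β) : takeN j l = l.take j := by
  unfold takeN
  rw [LFA_iter, List.drop_reverse, List.reverse_reverse]
  rcases le_total j l.length with h | h
  · congr 1; omega
  · rw [List.take_of_length_le h, List.take_of_length_le]; omega

theorem LFA_range (m : ℕ) : ∀ a : ℕ, m ≤ a →
    ((List.range a).filter (fun q => decide (q < m))).length = m := by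
  intro a
  induction a generalizing m with
  | zero => intro h; have : m = 0 := by omega
            subst this; rfl
  | succ a ih =>
    intro h
    rw [List.range_succ, List.filter_append, List.length_append]
    rcases Nat.lt_or_ge a m with h1 | h1
    · have h2 : m = a + 1 := by omega
      have h3 : (List.range a).filter (fun q => decide (q < m)) = List.range a := by
        rw [List.filter_eq_self]
        intro x hx
        rw [List.mem_range] at hx
        simp; omega
      rw [h3, List.length_range]
      simp [h2]
    · rw [ih m h1]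
      simp; omega

theorem divN_eq (a : ℕ) {b : ℕ} (hb : 0 < b) : divN a b = a / b := by
  unfold divN
  rw [← LFA_range (a / b) a (Nat.div_le_self a b)]
  congr 1
  refine List.filter_congr fun q _ => ?_
  congr 1
  rw [eq_iff_iff, ← Nat.le_div_iff_mul_le hb, Nat.succ_le_iff]

theorem LFA_dedup (L : LFam) : ∀ acc : LFam,
    (L.foldl (fun acc C => if acc.any (fun D => setEq C D) then acc else C :: acc) acc).length ≤
      acc.length + L.length := by
  induction L with
  | nil => intro acc; simp
  | cons A L ih =>
    intro acc
    rw [List.foldl_cons, List.length_cons]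
    split_ifs with h
    · have := ih acc; omega
    · have := ih (A :: acc)
      rw [List.length_cons] at this
      omega

theorem length_dedupF (L : LFam) : (dedupF L).length ≤ L.length := by
  have := LFA_dedup L []
  simpa [dedupF] using this

theorem length_cleanF (G : LFam) : (cleanF G).length ≤ G.length := by
  unfold cleanF
  exact (length_dedupF _).trans (by rw [List.length_map])

/-- Clauses `C` in `K` and at most `T` occurrences: at most `T²` resolvents. -/
theorem length_elimL_le {J : List ℕ} {K : LFam} {T : ℕ} (hJ : ∀ x ∈ J, occL x K ≤ T) :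
    (elimL J K).length ≤ K.length + J.length * T ^ 2 := by
  unfold elimL
  rw [List.length_append, List.length_flatMap]
  have h1 := List.length_filter_le (fun C => !(J.any (fun x => hasVar x C))) K
  have hocc : ∀ (x : ℕ) (b : Bool), (K.filter (fun A => memL (x, b) A)).length ≤ occL x K := by
    intro x b
    unfold occL
    refine List.Sublist.length_le (List.monotone_filter_right K ?_)
    intro C hC
    rw [memL_iff] at hC
    exact hasVar_iff'.2 ⟨b, hC⟩
  have h2 : ∀ x ∈ J, ((K.filter (fun A => memL (x, true) A)).flatMap
      (fun A => (K.filter (fun B => memL (x, false) B)).map (fun B => resL x A B))).length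
      ≤ T ^ 2 := by
    intro x hx
    rw [List.length_flatMap]
    simp only [List.length_map, List.map_const', List.sum_replicate, smul_eq_mul]
    calc _ ≤ T * T := Nat.mul_le_mul ((hocc x true).trans (hJ x hx)) ((hocc x false).trans (hJ x hx))
      _ = T ^ 2 := by ring
  have h3 : ∀ J' : List ℕ, (∀ x ∈ J', x ∈ J) →
      (J'.map (fun x => ((K.filter (fun A => memL (x, true) A)).flatMap
      (fun A => (K.filter (fun B => memL (x, false) B)).map (fun B => resL x A B))).length)).sum
      ≤ J'.length * T ^ 2 := by
    intro J' hJ'
    induction J' with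
    | nil => simp
    | cons x J' ih =>
      rw [List.map_cons, List.sum_cons, List.length_cons, Nat.add_mul, one_mul]
      have := h2 x (hJ' x List.mem_cons_self)
      have := ih fun y hy => hJ' y (List.mem_cons_of_mem _ hy)
      omega
  have := h3 J fun _ h => h
  omega

theorem leaf_slack {P Q w T n B : ℕ} (hP : 0 < P) (hQ : 0 < Q) (hw : 2 ≤ w)
    (hT : 2 * w * P ≤ Q * (T + 1)) {N : Nd} (h : Inv n B N) (hl : leafQ w N = true)
    (hs : Q * N.2.2.length < P * (N.1 - N.2.1.length)) :
    ∃ (n' j : ℕ) (G : LFam), outN P Q T N = encodeCNF n' G ∧ IsCNF (2 * w - 2) n' G ∧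
      (Satisfiable G ↔ Satisfiable N.2.2) ∧ Q * G.length ≤ P * n' ∧
      n' + j + N.2.1.length = n ∧
      (n ≤ N.2.1.length + 2 * (1 + T * (w - 1)) * j ∨
        P * n ≤ P * N.2.1.length + Q * N.2.2.length + (j + 1) * (Q * T ^ 2 + P)) := by
  classical
  have hn := h.hn
  obtain ⟨n0, U, L⟩ := N
  simp only at hn hs
  subst hn
  have hnd : (U.map Prod.fst).Nodup := h.nd
  have hUlt : ∀ l ∈ U, l.1 < n0 := h.lt
  have hcl : ∀ C ∈ L, C.Nodup ∧ (∀ x b, (x, b) ∈ C → (x, !b) ∉ C) ∧
    ∀ l ∈ C, l.1 < n0 ∧ hasVar l.1 U = false := h.cl
  -- all clauses have at most `w` literals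
  have hlen : ∀ C ∈ L, C.length ≤ w := by
    intro C hC
    by_contra hcon
    have h1 : C ∈ wideL w L := List.mem_filter.2 ⟨hC, by simpa using hcon⟩
    have h2 : wideL w L = [] := by
      have : (wideL w L).isEmpty = true := hl
      simpa using this
    rw [h2] at h1
    simp at h1
  have hD : 0 < Q * T ^ 2 + P := by omega
  set I := greedyL T n0 L U with hI
  set a := P * (n0 - U.length) - Q * L.length with ha
  set J := indep P Q T (n0, U, L) with hJdef
  have hJ : J = I.take (a / (Q * T ^ 2 + P)) := by
    rw [hJdef]
    unfold indep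
    simp only
    rw [divN_eq _ hD, takeN_eq]
  obtain ⟨g1, g2, g3, g4⟩ := greedy_spec T n0 L U
  rw [← hI] at g1 g2 g3 g4
  have hJI : ∀ x ∈ J, x ∈ I := by
    intro x hx
    rw [hJ] at hx
    exact List.mem_of_mem_take hx
  have hJnd : J.Nodup := by
    rw [hJ]
    exact (List.take_sublist _ _).nodup g2
  have hJlen : J.length = min (a / (Q * T ^ 2 + P)) I.length := by
    rw [hJ, List.length_take]
  have hJD : J.length * (Q * T ^ 2 + P) ≤ a := by
    have h1 : J.length ≤ a / (Q * T ^ 2 + P) := by rw [hJlen]; exact min_le_left _ _
    exact (Nat.mul_le_mul_right _ h1).trans (Nat.div_mul_le_self a _)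
  have hUmem : ∀ x, hasVar x U = false → x ∉ U.map Prod.fst := by
    intro x hx hx'
    obtain ⟨l, hl1, hl2⟩ := List.mem_map.1 hx'
    rw [← Bool.not_eq_true, hasVar_iff] at hx
    exact hx ⟨l, hl1, hl2⟩
  set W := J ++ U.map Prod.fst with hW
  -- independence
  have hindep : IndepL J L := by
    intro C hC l hl m hm hlI hmI
    by_cases e : l.1 = m.1
    · obtain ⟨x, b⟩ := l
      obtain ⟨y, c⟩ := m
      simp only at e
      subst e
      by_cases hbc : c = b
      · rw [hbc]
      · have : c = !b := by cases b <;> cases c <;> simp_all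
        subst this
        exact absurd hm ((hcl C hC).2.1 x b hl)
    · have := g3 _ (hJI _ hlI) _ (hJI _ hmI) e
      rw [← Bool.not_eq_true, adjL_iff] at this
      exact absurd ⟨C, hC, hasVar_iff.2 ⟨l, hl, rfl⟩, hasVar_iff.2 ⟨m, hm, rfl⟩⟩ this
  have helim : ∀ C ∈ elimL J L, C.length ≤ 2 * w - 2 ∧ ∀ l ∈ C, l.1 < n0 ∧ l.1 ∉ W := by
    intro C hC
    have hgone : ∀ D ∈ L, ∀ l ∈ D, l.1 ∉ J → l.1 ∉ W := by
      intro D hD l hl hlJ hlW
      rw [hW, List.mem_append] at hlW
      rcases hlW with h1 | h1
      · exact hlJ h1
      · exact hUmem _ ((hcl D hD).2.2 l hl).2 h1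
    rcases mem_elimL.1 hC with ⟨hC, hx⟩ | ⟨x, hx, A, hA, hxA, B', hB, hxB, rfl⟩
    · refine ⟨(hlen C hC).trans (by omega), fun l hl => ⟨((hcl C hC).2.2 l hl).1,
        hgone C hC l hl ?_⟩⟩
      intro h1
      have := hx _ h1
      rw [← Bool.not_eq_true] at this
      exact this (hasVar_iff.2 ⟨l, hl, rfl⟩)
    · refine ⟨?_, fun l hl => ?_⟩
      · have := length_resL hxA hxB
        have := hlen A hA
        have := hlen B' hB
        omega
      · rcases mem_resL.1 hl with ⟨h1, h2⟩ | ⟨h1, h2⟩
        · exact ⟨((hcl A hA).2.2 l h1).1,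
            hgone A hA l h1 fun h3 => h2 (hindep A hA l h1 _ hxA h3 hx)⟩
        · exact ⟨((hcl B' hB).2.2 l h1).1,
            hgone B' hB l h1 fun h3 => h2 (hindep B' hB l h1 _ hxB h3 hx)⟩
  set G := cleanF (elimL J L) with hG
  have hmem : ∀ C ∈ G, ∃ D ∈ elimL J L, dedupC D = C := by
    intro C hC
    exact List.mem_map.1 (mem_of_mem_dedupF hC)
  have hgone : ∀ C ∈ G, ∀ l ∈ C, l.1 ∉ W := by
    intro C hC l hl
    obtain ⟨D, hD, rfl⟩ := hmem C hC
    exact ((helim D hD).2 l (mem_dedupC.1 hl)).2
  have hcnf : IsCNF (2 * w - 2) n0 G := by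
    refine ⟨fun C hC => ?_, dedupF_pairwise _⟩
    obtain ⟨D, hD, rfl⟩ := hmem C hC
    refine ⟨dedupC_nodup D, (length_dedupC D).trans (helim D hD).1, fun l hl => ?_⟩
    exact ((helim D hD).2 l (mem_dedupC.1 hl)).1
  -- counting
  have hcount : rankL W n0 + J.length + U.length = n0 := by
    have h3 := rankL_add W n0
    have h4 : (Finset.range n0).filter (fun x => x ∈ W) =
        J.toFinset ∪ (U.map Prod.fst).toFinset := by
      ext x
      rw [Finset.mem_filter, Finset.mem_union, hW, List.mem_append, List.mem_toFinset,
        List.mem_toFinset, Finset.mem_range]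
      constructor
      · rintro ⟨_, h1⟩; exact h1
      · rintro (h1 | h1)
        · exact ⟨(g1 x (hJI x h1)).1, Or.inl h1⟩
        · refine ⟨?_, Or.inr h1⟩
          obtain ⟨l, hl1, hl2⟩ := List.mem_map.1 h1
          rw [← hl2]; exact hUlt l hl1
    have h5 : Disjoint J.toFinset (U.map Prod.fst).toFinset := by
      rw [Finset.disjoint_left]
      intro x hx hx'
      rw [List.mem_toFinset] at hx hx'
      exact hUmem x (g1 x (hJI x hx)).2.1 hx'
    rw [h4, Finset.card_union_of_disjoint h5, List.toFinset_card_of_nodup hJnd,
      List.toFinset_card_of_nodup hnd, List.length_map] at h3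
    omega
  have hGlen : (renL W G).length ≤ L.length + J.length * T ^ 2 := by
    unfold renL
    rw [List.length_map]
    exact (length_cleanF _).trans (length_elimL_le fun x hx => (g1 x (hJI x hx)).2.2)
  refine ⟨rankL W n0, J.length, renL W G, ?_, isCNF_renL hcnf hgone, ?_, ?_, hcount, ?_⟩
  · unfold outN
    simp only
    rw [decide_eq_true hs]
    rfl
  · rw [satisfiable_renL hgone, hG]
    unfold cleanF
    rw [satisfiable_dedupF, satisfiable_map_dedupC, satisfiable_elimL hindep]
  · have h1 : Q * (renL W G).length ≤ Q * (L.length + J.length * T ^ 2) :=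
      Nat.mul_le_mul_left _ hGlen
    have h2 : n0 - U.length = rankL W n0 + J.length := by omega
    have h3 : J.length * (Q * T ^ 2 + P) + Q * L.length ≤ P * (n0 - U.length) := by omega
    rw [h2] at h3
    nlinarith
  · by_cases hcase : I.length ≤ a / (Q * T ^ 2 + P)
    · left
      have hJI' : J.length = I.length := by rw [hJlen]; exact min_eq_right hcase
      rw [hJI']
      have h1 := card_high_le (Δ := T) (n := n0) hlen
      have h2 := card_low_le (Δ := T) (n := n0) (U := U) hlen
      rw [← hI] at h2
      set H := ((Finset.range n0).filter (fun x => T < occL x L)).card with hH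
      set low := ((Finset.range n0).filter (fun x => hasVar x U = false ∧ occL x L ≤ T)).card
        with hlow
      have h3 : n0 ≤ U.length + low + H := by
        have hsub : Finset.range n0 ⊆ ((U.map Prod.fst).toFinset ∪
            (Finset.range n0).filter (fun x => hasVar x U = false ∧ occL x L ≤ T)) ∪
            (Finset.range n0).filter (fun x => T < occL x L) := by
          intro x hx
          rw [Finset.mem_union, Finset.mem_union, Finset.mem_filter, Finset.mem_filter,
            List.mem_toFinset]
          by_cases hu : hasVar x U = true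
          · left; left
            obtain ⟨l, hl1, hl2⟩ := hasVar_iff.1 hu
            exact List.mem_map.2 ⟨l, hl1, hl2⟩
          · by_cases ho : occL x L ≤ T
            · left; right
              exact ⟨hx, by simpa using hu, ho⟩
            · right
              exact ⟨hx, by omega⟩
        have h4 := Finset.card_le_card hsub
        have h5 := Finset.card_union_le ((U.map Prod.fst).toFinset ∪
            (Finset.range n0).filter (fun x => hasVar x U = false ∧ occL x L ≤ T))
            ((Finset.range n0).filter (fun x => T < occL x L))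
        have h6 := Finset.card_union_le (U.map Prod.fst).toFinset
            ((Finset.range n0).filter (fun x => hasVar x U = false ∧ occL x L ≤ T))
        have h7 := List.toFinset_card_le (U.map Prod.fst)
        rw [List.length_map] at h7
        rw [Finset.card_range] at h4
        omega
      -- 2 H ≤ n - u
      have h4 : 2 * H ≤ n0 - U.length := by
        have e1 : Q * (T + 1) * H ≤ w * (Q * L.length) := by
          calc Q * (T + 1) * H = Q * ((T + 1) * H) := by ring
            _ ≤ Q * (w * L.length) := Nat.mul_le_mul_left _ h1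
            _ = w * (Q * L.length) := by ring
        have e2 : w * (Q * L.length) ≤ w * (P * (n0 - U.length)) :=
          Nat.mul_le_mul_left _ hs.le
        have e3 : 2 * w * P * H ≤ Q * (T + 1) * H := Nat.mul_le_mul_right _ hT
        have e4 : (w * P) * (2 * H) ≤ (w * P) * (n0 - U.length) := by
          calc (w * P) * (2 * H) = 2 * w * P * H := by ring
            _ ≤ w * (P * (n0 - U.length)) := (e3.trans e1).trans e2
            _ = (w * P) * (n0 - U.length) := by ring
        exact Nat.le_of_mul_le_mul_left e4 (by positivity)
      have h5 : 2 * (1 + T * (w - 1)) * I.length = 2 * ((1 + T * (w - 1)) * I.length) := by ring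
      show n0 ≤ U.length + 2 * (1 + T * (w - 1)) * I.length
      rw [h5]
      have h6 : U.length ≤ n0 := by omega
      omega
    · right
      push Not at hcase
      have hj : J.length = a / (Q * T ^ 2 + P) := by rw [hJlen]; exact min_eq_left hcase.le
      have h1 : a < (Q * T ^ 2 + P) * (J.length + 1) := by
        rw [hj]; exact Nat.lt_mul_div_succ a hD
      have h2 : U.length ≤ n0 := by omega
      have h3 : P * n0 = P * (n0 - U.length) + P * U.length := by
        rw [← Nat.mul_add]; congr 1; omega
      have h4 : (J.length + 1) * (Q * T ^ 2 + P) = (Q * T ^ 2 + P) * (J.length + 1) := by ring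
      show P * n0 ≤ P * U.length + Q * L.length + (J.length + 1) * (Q * T ^ 2 + P)
      rw [h3, h4]
      omega

end Pool.Agent.H94.DS
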