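import Pool.Agent.H94.DS.LFA

/-!
# Module LFB: a leaf without slack in the density: padding

Plan. `n' = (Q m + P - 1) / P`, so `Q m ≤ P n' ≤ Q m + P - 1`; the variables of `L` which are not in
`U` are renumbered to `0, …, n - u - 1` (`rankL_add`, `rankL_lt`), and `n - u ≤ n'` as
`P (n - u) ≤ Q m`. `cleanF L` is a `w`-CNF over `n` variables which avoids `U`; use `isCNF_renL`,
then enlarge `w` to `2w-2` and the number of variables to `n'`. Satisfiability:
`satisfiable_renL`, `satisfiable_dedupF`, `satisfiable_map_dedupC`. The lemmas `divN_eq`,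
`length_cleanF` of module LFA may be used (as stubs, keep the import).
-/

set_option autoImplicit false

namespace Pool.Agent.H94.DS

open Pool.Agent.H14.ETH

theorem leaf_full {P Q w T n B : ℕ} (hP : 0 < P) (hQ : 0 < Q) (hw : 2 ≤ w) {N : Nd}
    (h : Inv n B N) (hl : leafQ w N = true)
    (hs : P * (N.1 - N.2.1.length) ≤ Q * N.2.2.length) :
    ∃ (n' : ℕ) (G : LFam), outN P Q T N = encodeCNF n' G ∧ IsCNF (2 * w - 2) n' G ∧
      (Satisfiable G ↔ Satisfiable N.2.2) ∧ Q * G.length ≤ P * n' ∧
      P * n' ≤ Q * N.2.2.length + P := by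
  classical
  set W := N.2.1.map Prod.fst with hW
  set G0 := cleanF N.2.2 with hG0
  set n' := (Q * N.2.2.length + P - 1) / P with hn'
  have hdm := Nat.div_add_mod (Q * N.2.2.length + P - 1) P
  have hml := Nat.mod_lt (Q * N.2.2.length + P - 1) hP
  rw [← hn'] at hdm
  have hge : Q * N.2.2.length ≤ P * n' := by omega
  have hle : P * n' ≤ Q * N.2.2.length + P := by omega
  -- clauses of the cleaned formula
  have hmem : ∀ C ∈ G0, ∃ D ∈ N.2.2, dedupC D = C := by
    intro C hC
    exact List.mem_map.1 (mem_of_mem_dedupF hC)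
  have hnW : ∀ C ∈ G0, ∀ l ∈ C, l.1 ∉ W := by
    intro C hC l hlC hlW
    obtain ⟨D, hD, rfl⟩ := hmem C hC
    have h1 := ((h.cl D hD).2.2 l (mem_dedupC.1 hlC)).2
    rw [← Bool.not_eq_true] at h1
    obtain ⟨m, hm, hml'⟩ := List.mem_map.1 hlW
    exact h1 (hasVar_iff.2 ⟨m, hm, hml'⟩)
  have hwd : ∀ D ∈ N.2.2, D.length ≤ w := by
    intro D hD
    by_contra hcon
    have h1 : D ∈ wideL w N.2.2 := by
      unfold wideL
      rw [List.mem_filter]
      exact ⟨hD, decide_eq_true (by omega)⟩
    unfold leafQ at hl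
    rw [List.isEmpty_iff] at hl
    rw [hl] at h1
    simp at h1
  have hcnf : IsCNF w n G0 := by
    refine ⟨fun C hC => ?_, dedupF_pairwise _⟩
    obtain ⟨D, hD, rfl⟩ := hmem C hC
    refine ⟨dedupC_nodup D, (length_dedupC D).trans (hwd D hD), fun l hl => ?_⟩
    exact ((h.cl D hD).2.2 l (mem_dedupC.1 hl)).1
  have hren := isCNF_renL hcnf hnW
  have hrank : rankL W n + N.2.1.length = n := by
    have h1 := rankL_add W n
    have h2 : (Finset.range n).filter (fun x => x ∈ W) = W.toFinset := by
      ext x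
      rw [Finset.mem_filter, List.mem_toFinset, Finset.mem_range]
      constructor
      · exact fun hx => hx.2
      · intro hx
        refine ⟨?_, hx⟩
        obtain ⟨l, hl, rfl⟩ := List.mem_map.1 hx
        exact h.lt l hl
    rw [h2, List.toFinset_card_of_nodup h.nd, hW, List.length_map] at h1
    exact h1
  have hrle : rankL W n ≤ n' := by
    have h1 : N.1 - N.2.1.length = rankL W n := by
      rw [h.hn]
      omega
    rw [h1] at hs
    exact Nat.le_of_mul_le_mul_left (hs.trans hge) hP
  refine ⟨n', renL W G0, ?_, ?_, ?_, ?_, hle⟩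
  · unfold outN
    rw [decide_eq_false (not_lt.2 hs), cond_false, divN_eq _ hP]
  · refine ⟨fun C hC => ?_, hren.2⟩
    obtain ⟨h1, h2, h3⟩ := hren.1 C hC
    exact ⟨h1, h2.trans (by omega), fun l hl => (h3 l hl).trans_le hrle⟩
  · rw [satisfiable_renL hnW, hG0]
    unfold cleanF
    rw [satisfiable_dedupF, satisfiable_map_dedupC]
  · have h1 : (renL W G0).length ≤ N.2.2.length := by
      unfold renL
      rw [List.length_map]
      exact length_cleanF _
    exact (Nat.mul_le_mul_left _ h1).trans hge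

end Pool.Agent.H94.DS
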