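import Mathlib

/-!
# Module PAR: the parameters

`D = P / Q` is the density at the leaves, `Δ < D` the density of the input, `s` a lower bound for
the exponent at density `D`.

Plan. `η = s (1 - Δ/D) / 4 = s (D - Δ) / (4 D)`, `w` large, `T = ⌊2 w D⌋ = 2 * w * P / Q` (natural
division), so `T ≤ 2 w D < T + 1`; `g = s / (2 D (1 + 2 w² D))`, `x = 2 ^ (-(η w))`, `c = 2 x`,
`δ = g (D - Δ) / 2`.
* `kraft`: `x ≤ 1/2`, and `2 ^ (-2x) ≤ 1 - x` for `0 ≤ x ≤ 1/2` (convexity of `2 ^ (-y)`: for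
  `0 ≤ y ≤ 1`, `2 ^ (-y) ≤ 1 - y / 2`; e.g. Bernoulli `rpow_one_add_le_one_add_mul_self`
  or the proof of `kraft` in `Pool/Agent/H14/One.lean` or `Two.lean`).
* `hβ`: `η ≤ s/4`, `g D ≤ s/2`. `g1`: `Q T² + P = Q (T² + D) ≤ Q (4 w² D² + D)` and
  `g (4 w² D² + D) ≤ s`. `g2`: `2 g D (1 + T (w-1)) ≤ 2 g D (1 + 2 w² D) = s`.
* `r1`: need `c Δ ≤ g (D - Δ) / 2`; `r2`: `c Δ ≤ δ ≤ η` and `δ = g D (1 - Δ/D)/2 ≤ s (1 - Δ/D) / 4
  = η`, so `η + c Δ + δ ≤ 3 η ≤ 4 η`.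
* choice of `w`: `2 ^ (η w) ≥ (η w / 4) ^ 4` (because `2 ^ t ≥ t`). It suffices that
  `(η w) ^ 4 / 256 ≥ 8 Δ D (1 + 2 w² D) / (s (D - Δ)) = 2 Δ (1 + 2 w² D) / η`, and as `w ≥ 1`,
  `1 + 2 w² D ≤ w² (1 + 2 D)`, it suffices that `w² ≥ 512 Δ (1 + 2 D) / η ^ 5`. Also `w ≥ 3` and
  `η w ≥ 1`. As `η ≤ 1/4`, there is such a `w` with
  `w² ≤ 4 (512 Δ (1 + 2 D) / η ^ 5 + 9 / η ^ 2) ≤ 2048 (1 + Δ) (1 + 2 D) / η ^ 5`, say; then
  `δ = s (D - Δ) / (4 D (1 + 2 w² D)) = η / (1 + 2 w² D)` and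
  `1 + 2 w² D ≤ w² (1 + 2 D) ≤ 2048 (1 + Δ) (1 + 2 D)² / η ^ 5`, so
  `δ ≥ η ^ 6 / (2048 (1 + Δ) (1 + 2 D)²)`. With `η = s (D - Δ) / (4 D)` and `4 ^ 6 = 4096`:
  `δ ≥ (s (D - Δ)) ^ 6 / (2 ^ 23 * (1 + Δ) (1 + 2 D)² D ^ 6) ≥ (s (D - Δ)) ^ 6 / (2 ^ 25 (1 + D) ^ 9)`.
-/

set_option autoImplicit false

namespace Pool.Agent.H94.DS

/-- The parameters. -/
structure Par (Δ s : ℝ) (P Q : ℕ) where
  w : ℕ
  T : ℕ
  η : ℝ
  g : ℝ
  c : ℝ
  δ : ℝ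
  hw : 3 ≤ w
  hT : 2 * w * P ≤ Q * (T + 1)
  hη : 0 < η
  hg : 0 < g
  hc : 0 < c
  hδ : 0 < δ
  kraft : (2 : ℝ) ^ (-c) + (2 : ℝ) ^ (-(η * w)) ≤ 1
  hβ : η + g * ((P : ℝ) / Q) ≤ s
  g1 : g * (Q * T ^ 2 + P) ≤ s * Q
  g2 : 2 * (g * ((P : ℝ) / Q)) * (1 + T * (w - 1)) ≤ s
  r1 : c * Δ + δ ≤ g * ((P : ℝ) / Q - Δ)
  r2 : η + c * Δ + δ ≤ s * (1 - Δ / ((P : ℝ) / Q))

theorem par_two_rpow {x : ℝ} (hx : 0 ≤ x) (hx1 : x ≤ 1 / 2) : (2 : ℝ) ^ (-(2 * x)) ≤ 1 - x := by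
  have h := rpow_one_add_le_one_add_mul_self (s := -(1 / 2 : ℝ)) (by norm_num)
    (p := 2 * x) (by linarith) (by linarith)
  have h2 : (2 : ℝ) ^ (-(2 * x)) = (1 + -(1 / 2 : ℝ)) ^ (2 * x) := by
    rw [Real.rpow_neg (by norm_num), ← Real.inv_rpow (by norm_num)]
    norm_num
  rw [h2]
  linarith

theorem par_le_two_rpow {t : ℝ} (ht : 0 ≤ t) : t ≤ (2 : ℝ) ^ t := by
  rcases le_total t 1 with h | h
  · exact h.trans (Real.one_le_rpow (by norm_num) ht)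
  · have h1 := one_add_mul_self_le_rpow_one_add (s := (1 : ℝ)) (by norm_num) h
    norm_num at h1
    linarith

theorem par_pow_four {z : ℝ} (hz : 0 ≤ z) : z ^ 4 / 256 ≤ (2 : ℝ) ^ z := by
  have h1 := par_le_two_rpow (t := z / 4) (by positivity)
  have h2 : (2 : ℝ) ^ z = ((2 : ℝ) ^ (z / 4)) ^ 4 := by
    rw [← Real.rpow_natCast, ← Real.rpow_mul (by norm_num)]
    congr 1
    push_cast
    ring
  rw [h2]
  calc z ^ 4 / 256 = (z / 4) ^ 4 := by ring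
    _ ≤ _ := pow_le_pow_left₀ (by positivity) h1 4

/-- the choice of `w` -/
theorem par_w {Δ D η : ℝ} (hΔ : 0 < Δ) (hD : 0 < D) (hη : 0 < η) (hη1 : η ≤ 1 / 4) :
    ∃ w : ℕ, 3 ≤ w ∧ 1 ≤ η * w ∧ 512 * Δ * (1 + 2 * D) ≤ η ^ 5 * (w : ℝ) ^ 2 ∧
      η ^ 5 * (w : ℝ) ^ 2 ≤ 2048 * (1 + Δ) * (1 + 2 * D) := by
  set A : ℝ := 512 * Δ * (1 + 2 * D) / η ^ 5 + 9 / η ^ 2 with hA
  have hA0 : 0 ≤ A := by positivity
  have hW1 : 3 / η ≤ Real.sqrt A := by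
    apply Real.le_sqrt_of_sq_le
    rw [hA]
    have h1 : (3 / η) ^ 2 = 9 / η ^ 2 := by
      rw [div_pow]; norm_num
    rw [h1]
    have : 0 ≤ 512 * Δ * (1 + 2 * D) / η ^ 5 := by positivity
    linarith
  have hη4 : 12 ≤ 3 / η := by
    rw [le_div_iff₀ hη]
    linarith
  have hW12 : 12 ≤ Real.sqrt A := hη4.trans hW1
  have hw1 : Real.sqrt A ≤ (⌈Real.sqrt A⌉₊ : ℝ) := Nat.le_ceil _
  have hw2 : (⌈Real.sqrt A⌉₊ : ℝ) ≤ 2 * Real.sqrt A := by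
    have := (Nat.ceil_lt_add_one (Real.sqrt_nonneg A)).le
    linarith
  have hsq : Real.sqrt A ^ 2 = A := Real.sq_sqrt hA0
  have hη5 : 0 < η ^ 5 := by positivity
  have hAe : η ^ 5 * A = 512 * Δ * (1 + 2 * D) + 9 * η ^ 3 := by
    rw [hA]
    field_simp
  refine ⟨⌈Real.sqrt A⌉₊, ?_, ?_, ?_, ?_⟩
  · have : (3 : ℝ) ≤ (⌈Real.sqrt A⌉₊ : ℝ) := by linarith
    exact_mod_cast this
  · have h3 : 3 / η ≤ (⌈Real.sqrt A⌉₊ : ℝ) := hW1.trans hw1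
    rw [div_le_iff₀ hη] at h3
    nlinarith
  · have h4 : A ≤ (⌈Real.sqrt A⌉₊ : ℝ) ^ 2 := by
      have h41 := pow_le_pow_left₀ (Real.sqrt_nonneg A) hw1 2
      linarith
    have h5 := mul_le_mul_of_nonneg_left h4 hη5.le
    rw [hAe] at h5
    have : 0 ≤ 9 * η ^ 3 := by positivity
    linarith
  · have h4 : (⌈Real.sqrt A⌉₊ : ℝ) ^ 2 ≤ 4 * A := by
      have h6 := pow_le_pow_left₀ (by positivity) hw2 2
      have h7 : (2 * Real.sqrt A) ^ 2 = 4 * A := by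
        rw [mul_pow, hsq]; norm_num
      rw [h7] at h6
      exact h6
    have h5 := mul_le_mul_of_nonneg_left h4 hη5.le
    have h8 : η ^ 3 ≤ (1 / 4) ^ 3 := pow_le_pow_left₀ hη.le hη1 3
    have h9 : η ^ 5 * (4 * A) = 4 * (512 * Δ * (1 + 2 * D) + 9 * η ^ 3) := by
      rw [← hAe]; ring
    rw [h9] at h5
    have h10 : 2048 * (1 + Δ) * (1 + 2 * D) = 2048 * (1 + 2 * D) + 2048 * Δ * (1 + 2 * D) := by ring
    rw [h10]
    have h11 : (1 / 4 : ℝ) ^ 3 = 1 / 64 := by norm_num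
    rw [h11] at h8
    nlinarith

theorem exists_par {Δ s : ℝ} {P Q : ℕ} (hΔ : 0 < Δ) (hP : 0 < P) (hQ : 0 < Q)
    (h : Δ < (P : ℝ) / Q) (hs : 0 < s) (hs1 : s ≤ 1) :
    ∃ p : Par Δ s P Q,
      (s * ((P : ℝ) / Q - Δ)) ^ 6 / (2 ^ 25 * (1 + (P : ℝ) / Q) ^ 9) ≤ p.δ := by
  set D : ℝ := (P : ℝ) / Q with hDdef
  have hQ' : (0 : ℝ) < Q := by exact_mod_cast hQ
  have hP' : (0 : ℝ) < P := by exact_mod_cast hP
  have hD : 0 < D := div_pos hP' hQ'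
  have hPD : (P : ℝ) = Q * D := by
    rw [hDdef]
    field_simp
  set η : ℝ := s * (D - Δ) / (4 * D) with hηdef
  have hDΔ : 0 < D - Δ := sub_pos.2 h
  have hη : 0 < η := by positivity
  have hη4 : 4 * D * η = s * (D - Δ) := by
    rw [hηdef]
    field_simp
  have hηs : η ≤ s / 4 := by
    rw [hηdef, div_le_div_iff₀ (by positivity) (by norm_num)]
    nlinarith [mul_pos hs hΔ]
  have hη1 : η ≤ 1 / 4 := by linarith
  obtain ⟨w, hw3, hwη, hw1, hw2⟩ := par_w hΔ hD hη hη1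
  have hw3' : (3 : ℝ) ≤ w := by exact_mod_cast hw3
  set V : ℝ := 1 + 2 * (w : ℝ) ^ 2 * D with hV
  have hVpos : 0 < V := by positivity
  have hV1 : 1 ≤ V := by
    have : 0 ≤ 2 * (w : ℝ) ^ 2 * D := by positivity
    linarith
  have hVw : V ≤ (w : ℝ) ^ 2 * (1 + 2 * D) := by
    have : (1 : ℝ) ≤ (w : ℝ) ^ 2 := by nlinarith
    rw [hV]
    linarith
  set g : ℝ := s / (2 * D * V) with hg
  have hgpos : 0 < g := by positivity
  have hgD : g * D = s / (2 * V) := by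
    rw [hg]
    field_simp
  have hgDV : 2 * (g * D) * V = s := by
    rw [hgD]
    field_simp
  set x : ℝ := (2 : ℝ) ^ (-(η * w)) with hx
  have hxpos : 0 < x := Real.rpow_pos_of_pos (by norm_num) _
  have hxhalf : x ≤ 1 / 2 := by
    have h1 : x ≤ (2 : ℝ) ^ (-1 : ℝ) :=
      Real.rpow_le_rpow_of_exponent_le (by norm_num) (by linarith)
    rw [Real.rpow_neg_one] at h1
    linarith
  set δ : ℝ := g * (D - Δ) / 2 with hδ
  have hδpos : 0 < δ := by positivity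
  have hδη : δ * V = η := by
    have h1 : 2 * D * (2 * (δ * V)) = 2 * D * (2 * η) := by
      have h2 : 2 * D * (2 * (δ * V)) = (2 * (g * D) * V) * (D - Δ) := by
        rw [hδ]; ring
      rw [h2, hgDV]
      linarith
    have h3 : (2 * D) ≠ 0 := by positivity
    have := mul_left_cancel₀ h3 h1
    linarith
  have hδle : δ ≤ η := by
    rw [← hδη]
    nlinarith
  -- `c Δ ≤ δ`
  have hcΔ : 2 * x * Δ ≤ δ := by
    have h1 : (η * w) ^ 4 / 256 ≤ (2 : ℝ) ^ (η * w) := par_pow_four (by positivity)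
    have h2 : x * (2 : ℝ) ^ (η * w) = 1 := by
      rw [hx, ← Real.rpow_add (by norm_num)]
      simp
    have h3 : x * ((η * w) ^ 4) ≤ 256 := by
      have := mul_le_mul_of_nonneg_left h1 hxpos.le
      rw [h2] at this
      linarith
    have h4 : 512 * Δ * V ≤ η * (η * w) ^ 4 := by
      have h5 : 512 * Δ * V ≤ 512 * Δ * ((w : ℝ) ^ 2 * (1 + 2 * D)) :=
        mul_le_mul_of_nonneg_left hVw (by positivity)
      have h6 : (512 * Δ * (1 + 2 * D)) * (w : ℝ) ^ 2 ≤ (η ^ 5 * (w : ℝ) ^ 2) * (w : ℝ) ^ 2 :=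
        mul_le_mul_of_nonneg_right hw1 (by positivity)
      have h7 : (η ^ 5 * (w : ℝ) ^ 2) * (w : ℝ) ^ 2 = η * (η * w) ^ 4 := by ring
      rw [h7] at h6
      linarith
    have h8 : x * (512 * Δ * V) ≤ η * 256 := by
      calc x * (512 * Δ * V) ≤ x * (η * (η * w) ^ 4) := mul_le_mul_of_nonneg_left h4 hxpos.le
        _ = η * (x * (η * w) ^ 4) := by ring
        _ ≤ η * 256 := mul_le_mul_of_nonneg_left h3 hη.le
    have h9 : (2 * x * Δ) * V ≤ δ * V := by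
      rw [hδη]
      linarith
    exact le_of_mul_le_mul_right h9 hVpos
  -- `T`
  set T : ℕ := 2 * w * P / Q with hT
  have hT1 : 2 * w * P ≤ Q * (T + 1) := by
    have := Nat.lt_mul_div_succ (2 * w * P) hQ
    exact this.le
  have hT2 : (T : ℝ) ≤ 2 * w * D := by
    have h1 : T * Q ≤ 2 * w * P := Nat.div_mul_le_self _ _
    have h2 : (T : ℝ) * Q ≤ 2 * w * P := by exact_mod_cast h1
    rw [hPD] at h2
    have h3 : (T : ℝ) * Q ≤ (2 * w * D) * Q := by linarith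
    exact le_of_mul_le_mul_right h3 hQ'
  refine ⟨⟨w, T, η, g, 2 * x, δ, hw3, hT1, hη, hgpos, by positivity, hδpos, ?_, ?_, ?_, ?_, ?_,
    ?_⟩, ?_⟩
  · have := par_two_rpow hxpos.le hxhalf
    have hx' : (2 : ℝ) ^ (-(η * w)) = x := rfl
    rw [hx']
    linarith
  · have h1 : g * D ≤ s / 2 := by
      rw [hgD, div_le_div_iff₀ (by positivity) (by norm_num)]
      nlinarith
    linarith
  · have h1 : (T : ℝ) ^ 2 ≤ (2 * w * D) ^ 2 := pow_le_pow_left₀ (by positivity) hT2 2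
    have h2 : g * ((T : ℝ) ^ 2 + D) ≤ s := by
      have h3 : g * ((T : ℝ) ^ 2 + D) ≤ g * ((2 * w * D) ^ 2 + D) :=
        mul_le_mul_of_nonneg_left (by linarith) hgpos.le
      have h4 : g * ((2 * w * D) ^ 2 + D) ≤ 2 * (g * D) * V := by
        have h5 : 2 * (g * D) * V - g * ((2 * w * D) ^ 2 + D) = g * D := by
          rw [hV]; ring
        have h6 : 0 < g * D := by positivity
        linarith
      linarith
    have h7 : g * (Q * (T : ℝ) ^ 2 + P) = (g * ((T : ℝ) ^ 2 + D)) * Q := by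
      rw [hPD]; ring
    rw [h7]
    exact mul_le_mul_of_nonneg_right h2 hQ'.le
  · have h1 : (T : ℝ) * (w - 1) ≤ 2 * w ^ 2 * D := by
      have h2 : (T : ℝ) * (w - 1) ≤ (2 * w * D) * (w - 1) :=
        mul_le_mul_of_nonneg_right hT2 (by linarith)
      have h3 : 0 ≤ 2 * w * D := by positivity
      nlinarith
    have h4 : 2 * (g * D) * (1 + T * (w - 1)) ≤ 2 * (g * D) * V := by
      refine mul_le_mul_of_nonneg_left ?_ (by positivity)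
      rw [hV]
      linarith
    rw [hgDV] at h4
    exact h4
  · have h1 : g * (D - Δ) = 2 * δ := by
      rw [hδ]; ring
    show 2 * x * Δ + δ ≤ g * (D - Δ)
    rw [h1]
    linarith
  · have h1 : s * (1 - Δ / D) = 4 * η := by
      rw [hηdef]
      field_simp
    show η + 2 * x * Δ + δ ≤ s * (1 - Δ / D)
    rw [h1]
    linarith
  · show (s * (D - Δ)) ^ 6 / (2 ^ 25 * (1 + D) ^ 9) ≤ δ
    rw [div_le_iff₀ (by positivity), ← hη4]
    -- `V η ^ 5 ≤ 2048 (1 + Δ) (1 + 2 D) ^ 2`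
    have h1 : V * η ^ 5 ≤ 2048 * (1 + Δ) * (1 + 2 * D) ^ 2 := by
      calc V * η ^ 5 ≤ ((w : ℝ) ^ 2 * (1 + 2 * D)) * η ^ 5 :=
            mul_le_mul_of_nonneg_right hVw (by positivity)
        _ = (η ^ 5 * (w : ℝ) ^ 2) * (1 + 2 * D) := by ring
        _ ≤ (2048 * (1 + Δ) * (1 + 2 * D)) * (1 + 2 * D) :=
            mul_le_mul_of_nonneg_right hw2 (by positivity)
        _ = _ := by ring
    have h2 : 2048 * (1 + Δ) * (1 + 2 * D) ^ 2 ≤ 2048 * 4 * (1 + D) ^ 3 := by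
      have h3 : (1 + Δ) ≤ 1 + D := by linarith
      have h4 : (1 + 2 * D) ^ 2 ≤ (2 * (1 + D)) ^ 2 := pow_le_pow_left₀ (by positivity) (by linarith) 2
      calc 2048 * (1 + Δ) * (1 + 2 * D) ^ 2 ≤ 2048 * (1 + D) * (2 * (1 + D)) ^ 2 :=
            mul_le_mul (by linarith) h4 (by positivity) (by positivity)
        _ = _ := by ring
    have h5 : D ^ 6 ≤ (1 + D) ^ 6 := pow_le_pow_left₀ hD.le (by linarith) 6
    have h6 : (4 * D * η) ^ 6 = 4096 * D ^ 6 * (η * η ^ 5) := by ring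
    rw [h6, ← hδη]
    have h7 : 4096 * D ^ 6 * (δ * V * (δ * V) ^ 5) = δ * (4096 * D ^ 6 * (V * η ^ 5)) := by
      rw [hδη]
      have : δ * V = η := hδη
      calc 4096 * D ^ 6 * (η * η ^ 5) = 4096 * D ^ 6 * ((δ * V) * η ^ 5) := by rw [this]
        _ = _ := by ring
    rw [h7]
    refine mul_le_mul_of_nonneg_left ?_ hδpos.le
    calc 4096 * D ^ 6 * (V * η ^ 5) ≤ 4096 * (1 + D) ^ 6 * (2048 * 4 * (1 + D) ^ 3) :=
          mul_le_mul (by linarith) (h1.trans h2) (by positivity) (by positivity)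
      _ = 2 ^ 25 * (1 + D) ^ 9 := by ring

end Pool.Agent.H94.DS
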