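import Pool.Agent.H94.DS.Tree
import Pool.Agent.H14.IpzK

/-!
# Module POL: the functions of the tree are computable in polynomial time

Models: `Pool/Agent/H14/PFns.lean` (`pAddL`, `pElimL`, `pGreedyL`, `pRankL`, `pRenL`, `pDedupF`,
`pDedupC`, `pEncodeCNF`, `pMemL`, `pNegL`), `Pool/Agent/H13/PPlat.lean` (`pGetD`, `pQs`, `pRoot`),
`Pool/Agent/H14/IpzK.lean` (`pTakeConst`), `Pool/Agent/H13/PlatMain.lean`. For `takeN` use
`Poly.iterate` with `List.tail` as in `pGetD`, and `Poly.reverse`.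
-/

set_option autoImplicit false

namespace Pool.Agent.H94.DS

open Pool.Agent.H83 Pool.Agent.H14 Pool.Agent.H14.ETH Pool.Agent.H83.E14 Pool.Agent.H83.B13
open Pool.Agent.H83.P13

variable {α β : Type} [Enc α] [Enc β]

theorem pTakeN {j : α → ℕ} {l : α → List β} (hj : Poly j) (hl : Poly l) :
    Poly (fun a => takeN (j a) (l a)) := by
  have h : Poly (fun q : List β × ℕ => List.tail^[q.2] q.1) := by
    refine H83.Poly.iterate (n := fun q : List β × ℕ => q.2) (s := fun q : List β × ℕ => q.1)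
      (f := List.tail) H83.Poly.snd H83.Poly.fst (H83.Poly.tail H83.Poly.id) (fun n => n) PB.id ?_
    rintro ⟨l, n⟩ i _
    rw [P13.tail_iterate]
    have := H83.Poly.sz_drop_le l i
    rw [H83.Poly.sz_pair]
    simp only
    omega
  exact H83.Poly.reverse (h.comp ((H83.Poly.reverse hl).pair (H83.Poly.sub (H83.Poly.length hl) hj)))

theorem pDivN {f g : α → ℕ} (hf : Poly f) (hg : Poly g) : Poly (fun a => divN (f a) (g a)) := by
  unfold divN
  refine H83.Poly.length (H83.Poly.filter (f := fun (a : α) (q : ℕ) => decide ((q + 1) * g a ≤ f a))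
    (H83.Poly.range hf) ?_)
  exact H83.Poly.natLe (H83.Poly.mul (H83.Poly.succ H83.Poly.snd) (hg.comp H83.Poly.fst)) (hf.comp H83.Poly.fst)

theorem pFalsify {H : α → List Lit} {L : α → LFam} (hH : Poly H) (hL : Poly L) :
    Poly (fun a => falsify (H a) (L a)) := by
  unfold falsify
  refine H83.Poly.map (f := fun (a : α) (C : List Lit) => C.filter (fun l => !(memL l (H a)))) ?_ ?_
  · refine H83.Poly.filter (f := fun (a : α) (C : List Lit) =>
      !(C.any (fun l => memL (negL l) (H a)))) hL (H83.Poly.not ?_)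
    exact H83.Poly.any (f := fun (p : α × List Lit) (l : Lit) => memL (negL l) (H p.1)) H83.Poly.snd
      (pMemL (pNegL H83.Poly.snd) (hH.comp (H83.Poly.fst' H83.Poly.fst)))
  · exact H83.Poly.filter (f := fun (p : α × List Lit) l => !(memL l (H p.1))) H83.Poly.snd
      (H83.Poly.not (pMemL H83.Poly.snd (hH.comp (H83.Poly.fst' H83.Poly.fst))))

theorem pol_wideL (w : ℕ) {L : α → LFam} (hL : Poly L) : Poly (fun a => wideL w (L a)) :=
  H83.Poly.filter (f := fun (_ : α) (C : List Lit) => decide (w < C.length)) hL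
    (H83.Poly.natLt (H83.Poly.const w) (H83.Poly.length H83.Poly.snd))

theorem pol_heart (w : ℕ) {L : α → LFam} (hL : Poly L) : Poly (fun a => heart w (L a)) :=
  pTakeConst (0, true) w (H83.Poly.headD [] (pol_wideL w hL))

theorem pChildA (w : ℕ) : Poly (chA w) :=
  H83.Poly.fst.pair ((H83.Poly.fst' H83.Poly.snd).pair (pAddL
    (H83.Poly.cons (pol_heart w (H83.Poly.snd' H83.Poly.snd)) (H83.Poly.const [])) (H83.Poly.snd' H83.Poly.snd)))

theorem pChildB (w : ℕ) : Poly (chB w) :=
  H83.Poly.fst.pair ((H83.Poly.append (pol_heart w (H83.Poly.snd' H83.Poly.snd)) (H83.Poly.fst' H83.Poly.snd)).pair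
    (pFalsify (pol_heart w (H83.Poly.snd' H83.Poly.snd)) (H83.Poly.snd' H83.Poly.snd)))

theorem pLeafQ (w : ℕ) : Poly (leafQ w) := H83.Poly.isEmpty (pol_wideL w (H83.Poly.snd' H83.Poly.snd))

theorem pol_cleanF {G : α → LFam} (hG : Poly G) : Poly (fun a => cleanF (G a)) :=
  pDedupF (H83.Poly.map (f := fun (_ : α) (C : List Lit) => dedupC C) hG (pDedupC H83.Poly.snd))

theorem pol_indep (P Q T : ℕ) : Poly (indep P Q T) := by
  have hU : Poly (fun N : Nd => N.2.1) := H83.Poly.fst' H83.Poly.snd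
  have hL : Poly (fun N : Nd => N.2.2) := H83.Poly.snd' H83.Poly.snd
  refine pTakeN (pDivN ?_ (H83.Poly.const _)) (pGreedyL T H83.Poly.fst hL hU)
  exact H83.Poly.sub (H83.Poly.mul (H83.Poly.const P) (H83.Poly.sub H83.Poly.fst (H83.Poly.length hU)))
    (H83.Poly.mul (H83.Poly.const Q) (H83.Poly.length hL))

theorem pOutN (P Q T : ℕ) : Poly (outN P Q T) := by
  have hU : Poly (fun N : Nd => N.2.1) := H83.Poly.fst' H83.Poly.snd
  have hL : Poly (fun N : Nd => N.2.2) := H83.Poly.snd' H83.Poly.snd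
  have hV : Poly (fun N : Nd => N.2.1.map Prod.fst) :=
    H83.Poly.map (f := fun (_ : Nd) (l : Lit) => l.1) hU (H83.Poly.fst' H83.Poly.snd)
  have hI := pol_indep P Q T
  unfold outN
  refine H83.Poly.cond (c := fun N : Nd =>
    decide (Q * N.2.2.length < P * (N.1 - N.2.1.length))) ?_ ?_ ?_
  · exact H83.Poly.natLt (H83.Poly.mul (H83.Poly.const Q) (H83.Poly.length hL))
      (H83.Poly.mul (H83.Poly.const P) (H83.Poly.sub H83.Poly.fst (H83.Poly.length hU)))
  · exact pEncodeCNF (pRankL (H83.Poly.append hI hV) H83.Poly.fst)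
      (pRenL (H83.Poly.append hI hV) (pol_cleanF (pElimL hI hL)))
  · refine pEncodeCNF (pDivN ?_ (H83.Poly.const P)) (pRenL hV (pol_cleanF hL))
    exact H83.Poly.sub (H83.Poly.add (H83.Poly.mul (H83.Poly.const Q) (H83.Poly.length hL)) (H83.Poly.const P))
      (H83.Poly.const 1)

theorem pRoot : Poly root :=
  (H83.Poly.fst' pParse).pair ((H83.Poly.const []).pair
    (H83.Poly.filter (f := fun (_ : List Sym) (C : List Lit) => !(tautL C)) (H83.Poly.snd' pParse)
      (H83.Poly.not (pTautL H83.Poly.snd))))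

end Pool.Agent.H94.DS
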