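import Pool.Agent.H94.DS.STA

/-!
# Module SIZ: sizes

Models: `sz_le` in `Pool/Agent/H13/PlatMain.lean`, `length_encodeCNF_le`, `sz_list_le`, `sz_lit_le`,
`length_flatMap_le` in `Pool/Agent/H14/Size.lean`. A clause of the invariant has no repetition, so
at most `2 n` literals; `U` has at most `n` literals. The bound `szD A n` (any polynomially bounded
function, choose it; `A` is a constant) must bound the size of every node with `B ≤ A n`.
-/

set_option autoImplicit false

namespace Pool.Agent.H94.DS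

open Pool.Agent.H83 Pool.Agent.H14 Pool.Agent.H14.ETH Pool.Agent.H83.E14 Pool.Agent.H83.B13
open Pool.Agent.H83.P13

/-- A list of different literals over `n` variables has at most `2 n` elements. -/
theorem length_le_two_mul {n : ℕ} {C : List Lit} (h1 : C.Nodup) (h2 : ∀ l ∈ C, l.1 < n) :
    C.length ≤ 2 * n := by
  rw [← List.toFinset_card_of_nodup h1, ← card_lits]
  apply Finset.card_le_card
  intro l hl
  exact mem_lits.2 (h2 l (List.mem_toFinset.1 hl))

/-- The size bound. -/
def szD (A n : ℕ) : ℕ :=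
  (2 * n + 1) + ((n * ((2 * n + 6) + 1) + 1) +
    ((A * n) * (((2 * n) * ((2 * n + 6) + 1) + 1) + 1) + 1) + 1) + 1

theorem szD_PB (A : ℕ) : PB (szD A) := by
  unfold szD
  have h1 : PB (fun m => 2 * m) := (PB.const 2).mul PB.id
  have h2 : PB (fun m => (2 * m + 6) + 1) := (h1.add (PB.const 6)).add (PB.const 1)
  have h3 : PB (fun m => ((2 * m) * ((2 * m + 6) + 1) + 1) + 1) :=
    ((h1.mul h2).add (PB.const 1)).add (PB.const 1)
  have h4 : PB (fun m => m * ((2 * m + 6) + 1) + 1) := (PB.id.mul h2).add (PB.const 1)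
  have h5 : PB (fun m => (A * m) * (((2 * m) * ((2 * m + 6) + 1) + 1) + 1) + 1) :=
    (((PB.const A).mul PB.id).mul h3).add (PB.const 1)
  exact ((h1.add (PB.const 1)).add ((h4.add h5).add (PB.const 1))).add (PB.const 1)

theorem sz_le_szD {A n B : ℕ} {N : Nd} (h : Inv n B N) (hB : B ≤ A * n) : sz N ≤ szD A n := by
  obtain ⟨n', U, L⟩ := N
  have hU := h.card_le
  obtain ⟨h1, h2, h3, h4, h5⟩ := h
  simp only at h1 h2 h3 h4 h5 hU
  subst h1
  rw [Poly.sz_pair, Poly.sz_pair, Poly.sz_nat]
  have g2 := sz_list_le U (2 * n' + 6) (fun l hl => sz_lit_le (h3 l hl))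
  have g3 := sz_list_le L ((2 * n') * ((2 * n' + 6) + 1) + 1) (by
    intro C hC
    obtain ⟨c1, _, c3⟩ := h4 C hC
    have c4 : ∀ l ∈ C, l.1 < n' := fun l hl => (c3 l hl).1
    refine (sz_list_le C (2 * n' + 6) (fun l hl => sz_lit_le (c4 l hl))).trans ?_
    have := Nat.mul_le_mul_right (2 * n' + 6 + 1) (length_le_two_mul c1 c4)
    omega)
  have g4 := Nat.mul_le_mul_right ((2 * n' + 6) + 1) hU
  have g5 := Nat.mul_le_mul_right (((2 * n') * ((2 * n' + 6) + 1) + 1) + 1) (h5.trans hB)
  unfold szD
  omega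

/-- The length of the input word. -/
theorem length_encode_dens {A k n : ℕ} {F : LFam} (hF : IsCNF k n F) (hA : F.length ≤ A * n) :
    (encodeCNF n F).length ≤ n + (A * n) * ((2 * n) * n + 1) := by
  unfold encodeCNF
  rw [List.length_append, List.length_replicate]
  refine Nat.add_le_add_left ?_ _
  refine (length_flatMap_le F encodeClause ((2 * n) * n + 1) ?_).trans
    (Nat.mul_le_mul_right _ hA)
  intro C hC
  obtain ⟨c1, _, c3⟩ := hF.1 C hC
  unfold encodeClause
  rw [List.length_cons]
  refine Nat.add_le_add_right ?_ 1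
  refine (length_flatMap_le C encodeLit n ?_).trans
    (Nat.mul_le_mul_right _ (length_le_two_mul c1 c3))
  intro l hl
  have := c3 l hl
  unfold encodeLit
  rw [List.length_cons, List.length_replicate]
  omega

end Pool.Agent.H94.DS
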