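import Pool.Agent.H94.DS.Tree

/-!
# Module STB: the second child (the first `w` literals of a wide clause are false)

Plan. As in module STA: `H = heart w L` is `C₀.take w` for some `C₀ ∈ L` with more than `w`
literals. `falsify H L` removes the clauses which contain the negation of a literal of `H`, and
deletes the literals of `H` from the other clauses. A literal `l` of a new clause is a literal of a
clause of `L`, is not in `H`, and `negL l` is not in `H`, so its variable is not a variable of `H`.
The variables of `H` are pairwise different (no repetition and no complementary pair in `C₀`) and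
are not variables of `U` (by the invariant `cl`).
-/

set_option autoImplicit false

namespace Pool.Agent.H94.DS

open Pool.Agent.H14.ETH

variable {w n B : ℕ} {N : Nd}

theorem mem_falsify {H : List Lit} {L : LFam} {D : List Lit} : D ∈ falsify H L ↔
    ∃ C ∈ L, (∀ l ∈ C, negL l ∉ H) ∧ C.filter (fun l => !(memL l H)) = D := by
  unfold falsify
  rw [List.mem_map]
  constructor
  · rintro ⟨C, hC, rfl⟩
    rw [List.mem_filter] at hC
    refine ⟨C, hC.1, ?_, rfl⟩
    intro l hl hn
    have h1 := hC.2
    rw [Bool.not_eq_true', List.any_eq_false] at h1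
    exact h1 l hl (memL_iff.mpr hn)
  · rintro ⟨C, hC, h1, rfl⟩
    refine ⟨C, ?_, rfl⟩
    rw [List.mem_filter]
    refine ⟨hC, ?_⟩
    rw [Bool.not_eq_true', List.any_eq_false]
    intro l hl hn
    exact h1 l hl (memL_iff.mp hn)

theorem stb_heart {L : LFam} (hl : (wideL w L).isEmpty = false) : ∃ C ∈ L,
    (heart w L).length = w ∧ (heart w L).Sublist C := by
  cases hW : wideL w L with
  | nil =>
    rw [hW] at hl
    simp at hl
  | cons C Ls =>
    have h1 : C ∈ wideL w L := by
      rw [hW]
      exact List.mem_cons_self
    unfold wideL at h1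
    rw [List.mem_filter, decide_eq_true_iff] at h1
    have h2 : heart w L = C.take w := by
      unfold heart
      rw [hW]
      rfl
    refine ⟨C, h1.1, ?_, ?_⟩
    · rw [h2, List.length_take]
      omega
    · rw [h2]
      exact List.take_sublist _ _

theorem stb_length_falsify (H : List Lit) (L : LFam) : (falsify H L).length ≤ L.length := by
  unfold falsify
  rw [List.length_map]
  exact List.length_filter_le _ _

theorem Inv.chB (h : Inv n B N) (hl : leafQ w N = false) : Inv n B (chB w N) := by
  obtain ⟨C₀, hC₀, -, hsub⟩ := stb_heart hl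
  obtain ⟨h1, h2, h3⟩ := h.cl C₀ hC₀
  have hinj : ∀ x ∈ heart w N.2.2, ∀ y ∈ heart w N.2.2, x.1 = y.1 → x = y := by
    rintro ⟨x, b⟩ hx ⟨y, c⟩ hy hxy
    have hxy' : x = y := hxy
    subst hxy'
    have h4 := h2 x b (hsub.subset hx)
    have h5 := hsub.subset hy
    cases b <;> cases c
    · rfl
    · exact absurd h5 h4
    · exact absurd h5 h4
    · rfl
  refine ⟨h.hn, ?_, ?_, ?_, ?_⟩
  · change ((heart w N.2.2 ++ N.2.1).map Prod.fst).Nodup
    rw [List.map_append, List.nodup_append]
    refine ⟨?_, h.nd, ?_⟩
    · exact List.Nodup.map_on hinj (h1.sublist hsub)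
    · intro a ha b hb hab
      rw [List.mem_map] at ha hb
      obtain ⟨l, hl1, hl2⟩ := ha
      obtain ⟨m, hm1, hm2⟩ := hb
      have h4 := (h3 l (hsub.subset hl1)).2
      unfold hasVar at h4
      rw [List.any_eq_false] at h4
      refine h4 m hm1 ?_
      rw [decide_eq_true_iff, hm2, hl2, hab]
  · change ∀ l ∈ heart w N.2.2 ++ N.2.1, l.1 < n
    intro l hl
    rcases List.mem_append.mp hl with h4 | h4
    · exact (h3 l (hsub.subset h4)).1
    · exact h.lt l h4
  · change ∀ C ∈ falsify (heart w N.2.2) N.2.2, C.Nodup ∧ (∀ x b, (x, b) ∈ C → (x, !b) ∉ C) ∧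
      ∀ l ∈ C, l.1 < n ∧ hasVar l.1 (heart w N.2.2 ++ N.2.1) = false
    intro D hD
    obtain ⟨C, hC, hn, rfl⟩ := mem_falsify.mp hD
    obtain ⟨g1, g2, g3⟩ := h.cl C hC
    refine ⟨g1.sublist List.filter_sublist, ?_, ?_⟩
    · intro x b hx hx'
      exact g2 x b (List.mem_of_mem_filter hx) (List.mem_of_mem_filter hx')
    · intro l hl
      rw [List.mem_filter] at hl
      obtain ⟨hlC, hlH⟩ := hl
      refine ⟨(g3 l hlC).1, ?_⟩
      unfold hasVar
      rw [List.any_append, Bool.or_eq_false_iff]
      refine ⟨?_, (g3 l hlC).2⟩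
      rw [List.any_eq_false]
      intro m hm hml
      rw [decide_eq_true_iff] at hml
      rw [Bool.not_eq_true'] at hlH
      have hlH' : l ∉ heart w N.2.2 := by
        intro h6
        rw [memL_iff.mpr h6] at hlH
        exact Bool.noConfusion hlH
      have hnl : negL l ∉ heart w N.2.2 := hn l hlC
      obtain ⟨x, b⟩ := l
      obtain ⟨y, c⟩ := m
      have hxy : y = x := hml
      subst hxy
      cases b <;> cases c
      · exact hlH' hm
      · exact hnl hm
      · exact hnl hm
      · exact hlH' hm
  · exact (stb_length_falsify _ _).trans h.len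

theorem length_chB (hl : leafQ w N = false) :
    (chB w N).2.1.length = N.2.1.length + w ∧
    (chB w N).2.2.length ≤ N.2.2.length ∧
    (wideL w (chB w N).2.2).length ≤ (wideL w N.2.2).length := by
  obtain ⟨C₀, hC₀, hlen, hsub⟩ := stb_heart hl
  refine ⟨?_, stb_length_falsify _ _, ?_⟩
  · change (heart w N.2.2 ++ N.2.1).length = _
    rw [List.length_append, hlen, add_comm]
  · change (wideL w (falsify (heart w N.2.2) N.2.2)).length ≤ _
    unfold wideL falsify
    rw [← List.countP_eq_length_filter, ← List.countP_eq_length_filter, List.countP_map]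
    refine (List.filter_sublist.countP_le).trans ?_
    refine List.countP_mono_left ?_
    intro C _ hC
    rw [Function.comp_apply, decide_eq_true_iff] at hC
    rw [decide_eq_true_iff]
    exact hC.trans_le (List.length_filter_le _ _)

end Pool.Agent.H94.DS
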