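import Pool.Agent.H94.DS.Tree

/-!
# Module STS: branching preserves satisfiability

Plan. Let `H = heart w L` (this statement holds for every list `H` without complementary pair which
is a sublist of a clause of `L`, see `sat_split`).
`→`: let `v` satisfy `L`. If some literal of `H` is true, `v` satisfies `addL [H] L`. Otherwise all
literals of `H` are false and `v` satisfies `falsify H L` (a true literal of `C` is not in `H`).
`←`: if `v` satisfies `addL [H] L`, each clause `C` of `L` is kept or contains `H`. If `v` satisfies
`falsify H L`, change `v` on the variables of `H` so that all literals of `H` are false (possible: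
no complementary pair in `H`); a clause of `L` which contains the negation of a literal of `H` is
then true, and in each other clause the true literal is not changed.
-/

set_option autoImplicit false

namespace Pool.Agent.H94.DS

open Pool.Agent.H14.ETH

theorem sts_mem_falsify {H : List Lit} {L : LFam} {D : List Lit} : D ∈ falsify H L ↔
    ∃ C ∈ L, (∀ l ∈ C, negL l ∉ H) ∧ C.filter (fun l => !(memL l H)) = D := by
  rw [falsify, List.mem_map]
  constructor
  · rintro ⟨C, hC, hD⟩
    rw [List.mem_filter, Bool.not_eq_true', List.any_eq_false] at hC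
    exact ⟨C, hC.1, fun l hl h => hC.2 l hl (memL_iff.2 h), hD⟩
  · rintro ⟨C, hC, hn, hD⟩
    refine ⟨C, ?_, hD⟩
    rw [List.mem_filter, Bool.not_eq_true', List.any_eq_false]
    exact ⟨hC, fun l hl h => hn l hl (memL_iff.1 h)⟩

theorem sat_split {H : List Lit} {L : LFam} (hH : ∀ l ∈ H, negL l ∉ H) :
    Satisfiable L ↔ (Satisfiable (addL [H] L) ∨ Satisfiable (falsify H L)) := by
  classical
  constructor
  · rintro ⟨v, hv⟩
    by_cases hT : ∃ l ∈ H, v l.1 = l.2
    · left
      refine ⟨v, fun C hC => ?_⟩
      rcases List.mem_append.1 hC with h | h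
      · rw [List.mem_singleton] at h
        subst h
        exact hT
      · exact hv C (List.mem_of_mem_filter h)
    · right
      push Not at hT
      refine ⟨v, fun D hD => ?_⟩
      obtain ⟨C, hC, -, rfl⟩ := sts_mem_falsify.1 hD
      obtain ⟨l, hl, hvl⟩ := hv C hC
      refine ⟨l, ?_, hvl⟩
      rw [List.mem_filter, Bool.not_eq_true', ← Bool.not_eq_true, memL_iff]
      exact ⟨hl, fun h => hT l h hvl⟩
  · rintro (⟨v, hv⟩ | ⟨v, hv⟩)
    · refine ⟨v, fun C hC => ?_⟩
      by_cases hs : subl H C = true
      · obtain ⟨l, hl, hvl⟩ := hv H (by simp [addL])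
        refine ⟨l, ?_, hvl⟩
        exact List.mem_toFinset.1 (subl_iff.1 hs (List.mem_toFinset.2 hl))
      · refine hv C ?_
        rw [addL, List.mem_append]
        right
        rw [List.mem_filter]
        refine ⟨hC, ?_⟩
        simpa using hs
    · set v' : ℕ → Bool := fun x => if (x, true) ∈ H then false else
        if (x, false) ∈ H then true else v x with hv'
      have h1 : ∀ l ∈ H, v' l.1 = !l.2 := by
        rintro ⟨x, b⟩ hl
        cases b with
        | true => simp [hv', hl]
        | false =>
          have h2 : (x, true) ∉ H := hH _ hl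
          simp [hv', hl, h2]
      refine ⟨v', fun C hC => ?_⟩
      by_cases hn : ∃ l ∈ C, negL l ∈ H
      · obtain ⟨l, hl, hlH⟩ := hn
        refine ⟨l, hl, ?_⟩
        have := h1 _ hlH
        simpa [negL] using this
      · push Not at hn
        obtain ⟨l, hl, hvl⟩ := hv _ (sts_mem_falsify.2 ⟨C, hC, hn, rfl⟩)
        rw [List.mem_filter, Bool.not_eq_true', ← Bool.not_eq_true, memL_iff] at hl
        refine ⟨l, hl.1, ?_⟩
        have h2 := hn l hl.1
        have h3 := hl.2
        obtain ⟨x, b⟩ := l
        cases b with
        | true =>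
          have h4 : (x, false) ∉ H := h2
          simpa [hv', h3, h4] using hvl
        | false =>
          have h4 : (x, true) ∉ H := h2
          simpa [hv', h3, h4] using hvl

theorem sat_child {w n B : ℕ} {N : Nd} (h : Inv n B N) (hl : leafQ w N = false) :
    Satisfiable N.2.2 ↔ (Satisfiable (chA w N).2.2 ∨ Satisfiable (chB w N).2.2) := by
  refine sat_split (H := heart w N.2.2) ?_
  have hne : wideL w N.2.2 ≠ [] := by
    intro h0
    rw [leafQ, h0] at hl
    simp at hl
  obtain ⟨C, T, hCT⟩ := List.exists_cons_of_ne_nil hne
  have hC : C ∈ N.2.2 := by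
    have : C ∈ wideL w N.2.2 := by rw [hCT]; exact List.mem_cons_self
    exact List.mem_of_mem_filter this
  have hh : heart w N.2.2 = C.take w := by
    rw [heart, hCT]; rfl
  rintro ⟨x, b⟩ hl1 hl2
  rw [hh] at hl1 hl2
  exact (h.cl C hC).2.1 x b (List.mem_of_mem_take hl1) (List.mem_of_mem_take hl2)

end Pool.Agent.H94.DS
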