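import Pool.Agent.H94.DS.General
import Pool.Agent.H94.DS.STB
import Pool.Agent.H94.DS.STS
import Pool.Agent.H94.DS.LFB
import Pool.Agent.H94.DS.POL
import Pool.Agent.H94.DS.SIZ
import Pool.Agent.H94.DS.PAR

/-!
# From `k`-SAT with density `P / Q` to SAT with density `Δ`
-/

set_option autoImplicit false

namespace Pool.Agent.H94.DS

open Pool.Agent.H83 Pool.Agent.H14 Pool.Agent.H14.ETH Pool.Agent.H83.E14 Pool.Agent.H83.B13
open Pool.Agent.H14.XCmd Turing

variable {Δ s : ℝ} {P Q : ℕ}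

/-- First potential. -/
noncomputable def pot1 (p : Par Δ s P Q) (σ : ℝ) (N : Nd) : ℝ :=
  (σ - p.g * ((P : ℝ) / Q)) * ((N.1 : ℝ) - N.2.1.length) + p.g * N.2.2.length +
    p.c * (wideL p.w N.2.2).length

/-- Second potential. -/
noncomputable def pot2 (p : Par Δ s P Q) (σ : ℝ) (N : Nd) : ℝ :=
  p.η * ((N.1 : ℝ) - N.2.1.length) + p.c * (wideL p.w N.2.2).length +
    Δ / ((P : ℝ) / Q) * σ * N.1

/-- The potential. -/
noncomputable def pot (p : Par Δ s P Q) (σ : ℝ) (N : Nd) : ℝ := max (pot1 p σ N) (pot2 p σ N)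

theorem pot_nonneg (p : Par Δ s P Q) {σ : ℝ} (hσ : 0 ≤ σ) (hΔ : 0 ≤ Δ) {n B : ℕ} {N : Nd}
    (h : Inv n B N) : 0 ≤ pot p σ N := by
  refine le_trans ?_ (le_max_right _ _)
  unfold pot2
  have h1 := h.card_le
  rw [← h.hn] at h1
  have h2 : (N.2.1.length : ℝ) ≤ N.1 := by exact_mod_cast h1
  have h3 := mul_nonneg p.hη.le (sub_nonneg.2 h2)
  have h4 : 0 ≤ p.c * (wideL p.w N.2.2).length := mul_nonneg p.hc.le (Nat.cast_nonneg _)
  have h5 : 0 ≤ Δ / ((P : ℝ) / Q) * σ * N.1 := by positivity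
  linarith

theorem pot_chA (p : Par Δ s P Q) {σ : ℝ} {N : Nd} (hl : leafQ p.w N = false) :
    pot p σ (chA p.w N) ≤ pot p σ N - p.c := by
  obtain ⟨h1, h2⟩ := length_chA hl
  have h1' : ((chA p.w N).2.2.length : ℝ) ≤ N.2.2.length := by exact_mod_cast h1
  have h2' : ((wideL p.w (chA p.w N).2.2).length : ℝ) + 1 ≤ (wideL p.w N.2.2).length := by
    exact_mod_cast h2
  have e1 := mul_le_mul_of_nonneg_left h1' p.hg.le
  have e2 := mul_le_mul_of_nonneg_left h2' p.hc.le
  have g1 : (chA p.w N).1 = N.1 := rfl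
  have g2 : (chA p.w N).2.1 = N.2.1 := rfl
  have k1 : pot1 p σ (chA p.w N) ≤ pot1 p σ N - p.c := by
    unfold pot1
    rw [g1, g2]
    linarith
  have k2 : pot2 p σ (chA p.w N) ≤ pot2 p σ N - p.c := by
    unfold pot2
    rw [g1, g2]
    linarith
  unfold pot
  rw [max_le_iff]
  constructor
  · linarith [le_max_left (pot1 p σ N) (pot2 p σ N)]
  · linarith [le_max_right (pot1 p σ N) (pot2 p σ N)]

theorem pot_chB (p : Par Δ s P Q) {σ : ℝ} (hσ : s ≤ σ) {N : Nd} (hl : leafQ p.w N = false) :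
    pot p σ (chB p.w N) ≤ pot p σ N - p.η * p.w := by
  obtain ⟨h0, h1, h2⟩ := length_chB hl
  have h0' : ((chB p.w N).2.1.length : ℝ) = N.2.1.length + p.w := by exact_mod_cast h0
  have h1' : ((chB p.w N).2.2.length : ℝ) ≤ N.2.2.length := by exact_mod_cast h1
  have h2' : ((wideL p.w (chB p.w N).2.2).length : ℝ) ≤ (wideL p.w N.2.2).length := by
    exact_mod_cast h2
  have e1 := mul_le_mul_of_nonneg_left h1' p.hg.le
  have e2 := mul_le_mul_of_nonneg_left h2' p.hc.le
  have g1 : (chB p.w N).1 = N.1 := rfl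
  have hw : (0 : ℝ) ≤ p.w := Nat.cast_nonneg _
  have e3 : p.η * p.w ≤ (σ - p.g * ((P : ℝ) / Q)) * p.w :=
    mul_le_mul_of_nonneg_right (by linarith [p.hβ]) hw
  have k1 : pot1 p σ (chB p.w N) ≤ pot1 p σ N - p.η * p.w := by
    unfold pot1
    rw [g1, h0']
    linarith
  have k2 : pot2 p σ (chB p.w N) ≤ pot2 p σ N - p.η * p.w := by
    unfold pot2
    rw [g1, h0']
    linarith
  unfold pot
  rw [max_le_iff]
  constructor
  · linarith [le_max_left (pot1 p σ N) (pot2 p σ N)]
  · linarith [le_max_right (pot1 p σ N) (pot2 p σ N)]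

theorem pot_root (p : Par Δ s P Q) {σ : ℝ} (hσ : s ≤ σ) (hlt : Δ < (P : ℝ) / Q) (hΔ : 0 < Δ)
    {n : ℕ} {L : LFam} (hL : (L.length : ℝ) ≤ Δ * n) :
    pot p σ (n, [], L) ≤ (σ - p.δ) * n := by
  have hn : (0 : ℝ) ≤ n := Nat.cast_nonneg _
  have hwl : ((wideL p.w L).length : ℝ) ≤ Δ * n := by
    refine le_trans ?_ hL
    exact_mod_cast List.length_filter_le _ _
  have e1 := mul_le_mul_of_nonneg_left hL p.hg.le
  have e2 := mul_le_mul_of_nonneg_left hwl p.hc.le
  have hκ : 0 ≤ 1 - Δ / ((P : ℝ) / Q) := by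
    rw [sub_nonneg, div_le_one (hΔ.trans hlt)]
    exact hlt.le
  unfold pot pot1 pot2
  simp only [List.length_nil, Nat.cast_zero, sub_zero]
  rw [max_le_iff]
  constructor
  · have := mul_le_mul_of_nonneg_right p.r1 hn
    nlinarith
  · have h1 := mul_le_mul_of_nonneg_right p.r2 hn
    have h2 := mul_le_mul_of_nonneg_right (mul_le_mul_of_nonneg_right hσ hκ) hn
    nlinarith

theorem leaf_real (p : Par Δ s P Q) {σ : ℝ} (hs : 0 < s) (hσ : s ≤ σ) (hP : 0 < P) (hQ : 0 < Q)
    (hΔ : 0 < Δ) {n B : ℕ} (hB : (B : ℝ) ≤ Δ * n) {N : Nd} (h : Inv n B N)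
    (hl : leafQ p.w N = true) :
    ∃ (n' : ℕ) (G : LFam), outN P Q p.T N = encodeCNF n' G ∧
      DensK (2 * p.w - 2) ((P : ℝ) / Q) n' G ∧ (Satisfiable G ↔ Satisfiable N.2.2) ∧
      σ * n' ≤ pot p σ N + σ := by
  have hw := p.hw
  have hPR : (0 : ℝ) < P := by exact_mod_cast hP
  have hQR : (0 : ℝ) < Q := by exact_mod_cast hQ
  have hD : (0 : ℝ) < (P : ℝ) / Q := by positivity
  have hσ0 : 0 < σ := lt_of_lt_of_le hs hσ
  have hcard := h.card_le
  have hN1 := h.hn
  have hdens : ∀ (n' : ℕ) (G : LFam), Q * G.length ≤ P * n' →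
      (G.length : ℝ) ≤ (P : ℝ) / Q * n' := by
    intro n' G hG
    rw [div_mul_eq_mul_div, le_div_iff₀ hQR, mul_comm]
    exact_mod_cast hG
  by_cases hcase : Q * N.2.2.length < P * (N.1 - N.2.1.length)
  · obtain ⟨n', j, G, g1, g2, g3, g4, g5, g6⟩ :=
      leaf_slack (T := p.T) hP hQ (show 2 ≤ p.w by omega) p.hT h hl hcase
    refine ⟨n', G, g1, ⟨g2, hdens n' G g4⟩, g3, ?_⟩
    have g5' : (n' : ℝ) + j + N.2.1.length = n := by exact_mod_cast g5
    have hj0 : (0 : ℝ) ≤ j := Nat.cast_nonneg _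
    have hm0 : (0 : ℝ) ≤ N.2.2.length := Nat.cast_nonneg _
    have hwl0 : (0 : ℝ) ≤ p.c * (wideL p.w N.2.2).length :=
      mul_nonneg p.hc.le (Nat.cast_nonneg _)
    have hgm : 0 ≤ p.g * N.2.2.length := mul_nonneg p.hg.le hm0
    -- it suffices to bound the first potential
    have key : p.g * ((P : ℝ) / Q) * ((n : ℝ) - N.2.1.length) ≤
        σ * j + p.g * N.2.2.length + σ := by
      rcases g6 with g6 | g6
      · have g6' : (n : ℝ) - N.2.1.length ≤ 2 * (1 + p.T * (p.w - 1)) * j := by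
          have : (n : ℝ) ≤ N.2.1.length + 2 * (1 + p.T * ((p.w - 1 : ℕ) : ℝ)) * j := by
            exact_mod_cast g6
          rw [Nat.cast_sub (by omega), Nat.cast_one] at this
          linarith
        have hgD : 0 ≤ p.g * ((P : ℝ) / Q) := mul_nonneg p.hg.le hD.le
        have e1 := mul_le_mul_of_nonneg_left g6' hgD
        have e2 := mul_le_mul_of_nonneg_right (p.g2.trans hσ) hj0
        nlinarith
      · have g6' : (P : ℝ) * n ≤ P * N.2.1.length + Q * N.2.2.length +
            (j + 1) * (Q * p.T ^ 2 + P) := by exact_mod_cast g6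
        have e1 : (P : ℝ) / Q * ((n : ℝ) - N.2.1.length) ≤
            N.2.2.length + (j + 1) * (Q * p.T ^ 2 + P) / Q := by
          rw [div_mul_eq_mul_div, div_le_iff₀ hQR, add_mul, div_mul_cancel₀ _ hQR.ne']
          linarith
        have e2 : p.g * ((j + 1) * (Q * p.T ^ 2 + P) / Q) ≤ σ * (j + 1) := by
          have e3 : p.g * (Q * p.T ^ 2 + P) / Q ≤ σ := by
            rw [div_le_iff₀ hQR]
            exact p.g1.trans (mul_le_mul_of_nonneg_right hσ hQR.le)
          calc p.g * (((j : ℝ) + 1) * (Q * p.T ^ 2 + P) / Q)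
              = (p.g * (Q * p.T ^ 2 + P) / Q) * (j + 1) := by ring
            _ ≤ σ * (j + 1) := mul_le_mul_of_nonneg_right e3 (by positivity)
        have e4 := mul_le_mul_of_nonneg_left e1 p.hg.le
        nlinarith
    have : pot1 p σ N ≤ pot p σ N := le_max_left _ _
    unfold pot1 at this
    rw [hN1] at this
    have e5 : σ * n' = σ * ((n : ℝ) - N.2.1.length) - σ * j := by
      have : (n' : ℝ) = (n : ℝ) - N.2.1.length - j := by linarith
      rw [this]; ring
    rw [e5]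
    nlinarith
  · obtain ⟨n', G, g1, g2, g3, g4, g5⟩ :=
      leaf_full (T := p.T) hP hQ (show 2 ≤ p.w by omega) h hl (not_lt.1 hcase)
    refine ⟨n', G, g1, ⟨g2, hdens n' G g4⟩, g3, ?_⟩
    have g5' : (P : ℝ) * n' ≤ Q * N.2.2.length + P := by exact_mod_cast g5
    have hlen : (N.2.2.length : ℝ) ≤ Δ * n := le_trans (by exact_mod_cast h.len) hB
    have e1 : (n' : ℝ) ≤ Δ / ((P : ℝ) / Q) * n + 1 := by
      have e2 : (P : ℝ) * n' ≤ Q * (Δ * n) + P :=
        g5'.trans (by linarith [mul_le_mul_of_nonneg_left hlen hQR.le])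
      have e3 : Δ / ((P : ℝ) / Q) * n + 1 = (Q * (Δ * n) + P) / P := by
        field_simp
      rw [e3, le_div_iff₀ hPR]
      linarith
    have e4 := mul_le_mul_of_nonneg_left e1 hσ0.le
    have : pot2 p σ N ≤ pot p σ N := le_max_right _ _
    unfold pot2 at this
    rw [hN1] at this
    have h2 : (N.2.1.length : ℝ) ≤ n := by exact_mod_cast hcard
    have h3 := mul_nonneg p.hη.le (sub_nonneg.2 h2)
    have h4 : 0 ≤ p.c * (wideL p.w N.2.2).length := mul_nonneg p.hc.le (Nat.cast_nonneg _)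
    nlinarith

theorem root_inv' {k n : ℕ} {F : LFam} (hF : IsCNF k n F) :
    Inv n F.length (n, [], F.filter (fun C => !(tautL C))) where
  hn := rfl
  nd := by simp
  lt := by simp
  cl := by
    intro C hC
    rw [List.mem_filter, Bool.not_eq_true'] at hC
    obtain ⟨h1, h2, h3⟩ := hF.1 C hC.1
    exact ⟨h1, tautL_iff.1 hC.2, fun l hl => ⟨h3 l hl, rfl⟩⟩
  len := List.length_filter_le _ _

/-- The reduction. -/
theorem dens_of_par (p : Par Δ s P Q) (hs : 0 < s) (hΔ : 0 < Δ) (hP : 0 < P) (hQ : 0 < Q)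
    (hlt : Δ < (P : ℝ) / Q) {σ : ℝ} (hσ : s ≤ σ)
    (hK : SolvableOn (DensK (2 * p.w - 2) ((P : ℝ) / Q)) σ) {ρ : ℝ} (hρ : σ - p.δ < ρ) :
    SolvableOn (Dens Δ) ρ := by
  classical
  obtain ⟨M, c, hM⟩ := hK
  have hσ0 : 0 < σ := lt_of_lt_of_le hs hσ
  set C1 : ℝ := max c 1 with hC1
  have h1C : 1 ≤ C1 := le_max_right _ _
  have hcC : c ≤ C1 := le_max_left _ _
  set C : ℝ := C1 * (2 : ℝ) ^ σ with hC
  have h2σ : (0 : ℝ) < (2 : ℝ) ^ σ := by positivity
  have hC0 : 0 ≤ C := by positivity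
  have hw := p.hw
  have hwR : (0 : ℝ) < p.w := by
    have : 0 < p.w := by omega
    exact_mod_cast this
  set e0 : ℝ := min p.c (p.η * p.w) with he0
  have he0p : 0 < e0 := lt_min p.hc (mul_pos p.hη hwR)
  set A : ℕ := ⌈Δ⌉₊ with hA
  set K1 : ℕ := ⌈σ / e0⌉₊ with hK1
  refine solvableOn_of_eval (M := M) (isLeaf := leafQ p.w) (childA := chA p.w)
    (childB := chB p.w) (out := outN P Q p.T) (init := root) (pLeafQ _) (pChildA _) (pChildB _)
    (pOutN _ _ _) pRoot (C := max C 2) (ρ := σ - p.δ)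
    (q := fun n => (szD A n + K1 * n) + (n + (A * n) * ((2 * n) * n + 1))) ?_ ?_ hρ
  · exact ((szD_PB A).add ((PB.const K1).mul PB.id)).add (PB.id.add (((PB.const A).mul PB.id).mul
      ((((PB.const 2).mul PB.id).mul PB.id).add (PB.const 1))))
  · intro n F hF
    obtain ⟨⟨k, hF⟩, hlen⟩ := hF
    have hinv := root_inv' hF
    have hBA : F.length ≤ A * n := by
      have h1 : (F.length : ℝ) ≤ (A : ℝ) * n :=
        hlen.trans (mul_le_mul_of_nonneg_right (Nat.le_ceil Δ) (Nat.cast_nonneg _))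
      exact_mod_cast h1
    have key := eval_of_pot (M := M) (isLeaf := leafQ p.w) (childA := chA p.w)
      (childB := chB p.w) (out := outN P Q p.T)
      (S := szD A n) (Inv n F.length) (pot p σ)
      (fun N => decide (Satisfiable N.2.2)) (η := e0) (C := C) he0p
      (fun N hN => sz_le_szD hN hBA) (fun N hN => pot_nonneg p hσ0.le hΔ.le hN) ?_ ?_ hC0 _ hinv
    · obtain ⟨tt, cc, d, he, ht, hcc, hd⟩ := key
      have hans : decide (Satisfiable ((n, [], F.filter (fun C => !(tautL C))) : Nd).2.2) =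
          decide (Satisfiable F) :=
        decide_eq_decide.2 (P13.satisfiable_filter_taut F)
      have hpot : pot p σ (n, [], F.filter (fun C => !(tautL C))) ≤ (σ - p.δ) * n := by
        refine pot_root p hσ hlt hΔ (le_trans ?_ hlen)
        exact_mod_cast List.length_filter_le _ _
      have h2pot : (2 : ℝ) ^ pot p σ (n, [], F.filter (fun C => !(tautL C))) ≤
          (2 : ℝ) ^ ((σ - p.δ) * n) :=
        Real.rpow_le_rpow_of_exponent_le (by norm_num) hpot
      have hXX : (0 : ℝ) ≤ (2 : ℝ) ^ ((σ - p.δ) * n) := by positivity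
      have hlen' := length_encode_dens hF hBA
      refine ⟨tt, cc, d, szD A n, ?_, ?_, ?_, ?_, ?_, ?_⟩
      · have hroot : root (encodeCNF n F) = (n, [], F.filter (fun C => !(tautL C))) := by
          unfold root
          rw [parse_encodeCNF]
        rw [hroot]
        have e : @decide (Satisfiable F) (Classical.propDecidable _) = decide (Satisfiable F) := by
          congr
        rw [e, ← hans]
        exact he
      · calc (tt : ℝ) ≤ C * (2 : ℝ) ^ pot p σ _ := ht
          _ ≤ C * (2 : ℝ) ^ ((σ - p.δ) * n) := mul_le_mul_of_nonneg_left h2pot hC0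
          _ ≤ _ := mul_le_mul_of_nonneg_right (le_max_left _ _) hXX
      · calc (cc : ℝ) ≤ 2 * (2 : ℝ) ^ pot p σ (n, [], F.filter (fun C => !(tautL C))) := by
              linarith
          _ ≤ 2 * (2 : ℝ) ^ ((σ - p.δ) * n) := mul_le_mul_of_nonneg_left h2pot (by norm_num)
          _ ≤ _ := mul_le_mul_of_nonneg_right (le_max_right _ _) hXX
      · have h1 : (d : ℝ) ≤ K1 * n := by
          refine hd.trans ?_
          have h3 : (σ - p.δ) * n ≤ σ * n :=
            mul_le_mul_of_nonneg_right (by linarith [p.hδ]) (Nat.cast_nonneg _)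
          have h4 : σ * n / e0 ≤ K1 * n := by
            have h5 : σ * n / e0 = σ / e0 * n := by ring
            rw [h5]
            exact mul_le_mul_of_nonneg_right (Nat.le_ceil _) (Nat.cast_nonneg _)
          exact (div_le_div_of_nonneg_right (hpot.trans h3) he0p.le).trans h4
        have h6 : d ≤ K1 * n := by exact_mod_cast h1
        omega
      · omega
      · omega
    · intro N hN hl
      obtain ⟨n', G, h1, h2, h3, h4⟩ := leaf_real p hs hσ hP hQ hΔ hlen hN hl
      obtain ⟨tt, ht, hans⟩ := hM n' G h2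
      refine ⟨tt, ?_, ?_⟩
      · rw [h1]
        have e : decide (Satisfiable N.2.2) =
            @decide (Satisfiable G) (Classical.propDecidable _) := by
          rw [decide_eq_decide]
          exact h3.symm
        rw [e]
        exact hans
      · refine ht.trans ?_
        have h5 : (2 : ℝ) ^ (σ * n') ≤ (2 : ℝ) ^ (pot p σ N + σ) :=
          Real.rpow_le_rpow_of_exponent_le (by norm_num) h4
        have h6 : (0 : ℝ) ≤ (2 : ℝ) ^ (σ * n') := by positivity
        rw [Real.rpow_add (by norm_num)] at h5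
        calc c * (2 : ℝ) ^ (σ * n') ≤ C1 * (2 : ℝ) ^ (σ * n') := mul_le_mul_of_nonneg_right hcC h6
          _ ≤ C1 * ((2 : ℝ) ^ pot p σ N * (2 : ℝ) ^ σ) :=
            mul_le_mul_of_nonneg_left h5 (by linarith)
          _ = _ := by rw [hC]; ring
    · intro N hN hl
      refine ⟨hN.chA hl, hN.chB hl, ?_, p.c, p.η * p.w, min_le_left _ _, min_le_right _ _,
        pot_chA p hl, pot_chB p hσ hl, p.kraft⟩
      rw [← Bool.decide_or]
      exact decide_eq_decide.2 (sat_child hN hl)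

end Pool.Agent.H94.DS
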