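import Pool.Agent.H94.DS.Tree

/-!
# Module STA: the first child (the wide clause is cut to its first `w` literals)

Plan. `leafQ w N = false` means that `wideL w L` is not empty; its head `C₀` is in `L` and has more
than `w` literals, `heart w L = C₀.take w` has exactly `w` literals, is a sublist of `C₀` (so no
repetition, no complementary pair, variables `< n` and not in `U`). `chA` replaces `L` by
`addL [H] L = [H] ++ L.filter (fun C => !([H].any (fun P => subl P C)))`; `C₀` is removed, as
`subl H C₀ = true`; so the number of clauses does not grow and the number of wide clauses drops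
(`H` itself is not wider than `w`).
-/

set_option autoImplicit false

namespace Pool.Agent.H94.DS

open Pool.Agent.H14.ETH

variable {w n B : ℕ} {N : Nd}

theorem STA_subl_of_sublist {H C : List Lit} (h : H.Sublist C) : subl H C = true := by
  rw [subl_iff]
  intro l hl
  rw [List.mem_toFinset] at hl ⊢
  exact h.subset hl

/-- The heart. -/
theorem heart_spec {L : LFam} (hl : (wideL w L).isEmpty = false) : ∃ C ∈ L, w < C.length ∧
    heart w L = C.take w ∧ (heart w L).length = w ∧ (heart w L).Sublist C := by
  have hne : wideL w L ≠ [] := by
    intro h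
    rw [h] at hl
    simp at hl
  obtain ⟨C, t, hC⟩ := List.exists_cons_of_ne_nil hne
  have hh : heart w L = C.take w := by
    unfold heart
    rw [hC]
    rfl
  have hCw : C ∈ wideL w L := by
    rw [hC]
    exact List.mem_cons_self
  have hCw' : C ∈ L ∧ w < C.length := by
    have h1 := List.mem_filter.mp hCw
    exact ⟨h1.1, by simpa using h1.2⟩
  refine ⟨C, hCw'.1, hCw'.2, hh, ?_, ?_⟩
  · rw [hh, List.length_take]
    exact min_eq_left hCw'.2.le
  · rw [hh]
    exact List.take_sublist w C

theorem STA_addL (H : List Lit) (L : LFam) :
    addL [H] L = H :: L.filter (fun C => !(subl H C)) := by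
  simp [addL]

theorem length_chA (hl : leafQ w N = false) :
    (chA w N).2.2.length ≤ N.2.2.length ∧
    (wideL w (chA w N).2.2).length + 1 ≤ (wideL w N.2.2).length := by
  obtain ⟨C, hC, hCw, _, hlen, hsub⟩ := heart_spec (w := w) (L := N.2.2) hl
  have hs : subl (heart w N.2.2) C = true := STA_subl_of_sublist hsub
  have he : (chA w N).2.2 = heart w N.2.2 ::
      N.2.2.filter (fun C => !(subl (heart w N.2.2) C)) := STA_addL _ _
  constructor
  · rw [he, List.length_cons]
    have h1 : (N.2.2.filter (fun C => !(subl (heart w N.2.2) C))).length < N.2.2.length := by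
      rw [List.length_filter_lt_length_iff_exists]
      exact ⟨C, hC, by simp [hs]⟩
    omega
  · rw [he]
    have h2 : wideL w (heart w N.2.2 :: N.2.2.filter (fun C => !(subl (heart w N.2.2) C))) =
        (wideL w N.2.2).filter (fun C => !(subl (heart w N.2.2) C)) := by
      unfold wideL
      rw [List.filter_cons_of_neg (by simp [show ¬ w < (heart w N.2.2).length by omega]),
        List.filter_filter, List.filter_filter]
      apply List.filter_congr
      intro x _
      rw [Bool.and_comm]
    rw [h2]
    have h3 : ((wideL w N.2.2).filter (fun C => !(subl (heart w N.2.2) C))).length <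
        (wideL w N.2.2).length := by
      rw [List.length_filter_lt_length_iff_exists]
      refine ⟨C, ?_, by simp [hs]⟩
      exact List.mem_filter.mpr ⟨hC, by simpa using hCw⟩
    omega

theorem Inv.chA (h : Inv n B N) (hl : leafQ w N = false) : Inv n B (chA w N) := by
  obtain ⟨C, hC, hCw, _, hlen, hsub⟩ := heart_spec (w := w) (L := N.2.2) hl
  refine ⟨h.hn, h.nd, h.lt, ?_, (length_chA hl).1.trans h.len⟩
  intro D hD
  have he : (Pool.Agent.H94.DS.chA w N).2.2 = heart w N.2.2 ::
      N.2.2.filter (fun C => !(subl (heart w N.2.2) C)) := STA_addL _ _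
  rw [he] at hD
  rcases List.mem_cons.mp hD with rfl | hD
  · obtain ⟨h1, h2, h3⟩ := h.cl C hC
    exact ⟨h1.sublist hsub, fun x b hx hx' => h2 x b (hsub.subset hx) (hsub.subset hx'),
      fun l hl' => h3 l (hsub.subset hl')⟩
  · exact h.cl D (List.mem_of_mem_filter hD)

/-- The literals set to false are at most `n`. -/
theorem Inv.card_le (h : Inv n B N) : N.2.1.length ≤ n := by
  have h1 : (N.2.1.map Prod.fst).toFinset ⊆ Finset.range n := by
    intro x hx
    rw [List.mem_toFinset, List.mem_map] at hx
    obtain ⟨l, hl, rfl⟩ := hx
    exact Finset.mem_range.mpr (h.lt l hl)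
  have h2 := Finset.card_le_card h1
  rw [List.toFinset_card_of_nodup h.nd, Finset.card_range, List.length_map] at h2
  exact h2

end Pool.Agent.H94.DS
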