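import Pool.Agent.H94.DS.Defs
import Pool.Agent.H13.PlatMain

/-!
# The branching tree: a clause wider than `w` is cut to its first `w` literals, or these are false
-/

set_option autoImplicit false

namespace Pool.Agent.H94.DS

open Pool.Agent.H14.ETH

/-- Nodes: number of variables, the literals set to false, the formula. -/
abbrev Nd : Type := ℕ × List Lit × LFam

/-- The clauses wider than `w`. -/
def wideL (w : ℕ) (L : LFam) : LFam := L.filter (fun C => decide (w < C.length))

/-- The first `w` literals of the first clause wider than `w`. -/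
def heart (w : ℕ) (L : LFam) : List Lit := ((wideL w L).headD []).take w

/-- Set the literals of `H` to false. -/
def falsify (H : List Lit) (L : LFam) : LFam :=
  (L.filter (fun C => !(C.any (fun l => memL (negL l) H)))).map
    (fun C => C.filter (fun l => !(memL l H)))

/-- First child: the clause is cut. -/
def chA (w : ℕ) (N : Nd) : Nd := (N.1, N.2.1, addL [heart w N.2.2] N.2.2)

/-- Second child: the literals are false. -/
def chB (w : ℕ) (N : Nd) : Nd :=
  (N.1, heart w N.2.2 ++ N.2.1, falsify (heart w N.2.2) N.2.2)

/-- Leaves: all clauses have at most `w` literals. -/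
def leafQ (w : ℕ) (N : Nd) : Bool := (wideL w N.2.2).isEmpty

/-- The invariant. -/
structure Inv (n B : ℕ) (N : Nd) : Prop where
  hn : N.1 = n
  nd : (N.2.1.map Prod.fst).Nodup
  lt : ∀ l ∈ N.2.1, l.1 < n
  cl : ∀ C ∈ N.2.2, C.Nodup ∧ (∀ x b, (x, b) ∈ C → (x, !b) ∉ C) ∧
    ∀ l ∈ C, l.1 < n ∧ hasVar l.1 N.2.1 = false
  len : N.2.2.length ≤ B

/-- The formula without repetitions. -/
def cleanF (G : LFam) : LFam := dedupF (G.map dedupC)

/-- The first `j` elements. -/
def takeN {β : Type} (j : ℕ) (l : List β) : List β := (List.tail^[l.length - j] l.reverse).reverse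

/-- The quotient `a / b`. -/
def divN (a b : ℕ) : ℕ := ((List.range a).filter (fun q => decide ((q + 1) * b ≤ a))).length

/-- The variables eliminated at a leaf. -/
def indep (P Q T : ℕ) (N : Nd) : List ℕ :=
  takeN (divN (P * (N.1 - N.2.1.length) - Q * N.2.2.length) (Q * T ^ 2 + P))
    (greedyL T N.1 N.2.2 N.2.1)

/-- The word at a leaf. If there is slack in the density, some variables are eliminated, otherwise
the formula is padded with new variables. -/
def outN (P Q T : ℕ) (N : Nd) : List Sym :=
  bif decide (Q * N.2.2.length < P * (N.1 - N.2.1.length)) then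
    encodeCNF (rankL (indep P Q T N ++ N.2.1.map Prod.fst) N.1)
      (renL (indep P Q T N ++ N.2.1.map Prod.fst) (cleanF (elimL (indep P Q T N) N.2.2)))
  else
    encodeCNF (divN (Q * N.2.2.length + P - 1) P) (renL (N.2.1.map Prod.fst) (cleanF N.2.2))

/-- The root: tautologies are removed. -/
def root (w : List Sym) : Nd := ((parse w).1, [], (parse w).2.filter (fun C => !(tautL C)))

end Pool.Agent.H94.DS
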